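import Mathlib

open Set Topology

namespace Pool.Agent.Lib.MP_302921_gt

universe u

/-- `C_p(Z)`: the continuous real functions on `Z` with the topology of pointwise convergence
(the subspace topology from the product `Z → ℝ`). -/
abbrev Cp (Z : Type u) [TopologicalSpace Z] : Type u := {f : Z → ℝ // Continuous f}

/-- The subspace `F` of `Z` is t-embedded in `Z`: there is a continuous (not necessarily linear)
extender `φ : C_p(F) → C_p(Z)`. -/
def TEmbedded {Z : Type u} [TopologicalSpace Z] (F : Set Z) : Prop :=
  ∃ φ : Cp F → Cp Z, Continuous φ ∧ ∀ (f : Cp F) (x : F), (φ f).1 x = f.1 x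

/-- `Z` is t-extendial: every closed subspace of `Z` is t-embedded in `Z`. -/
def TExtendial (Z : Type u) [TopologicalSpace Z] : Prop :=
  ∀ F : Set Z, IsClosed F → TEmbedded F

/-- The set of countable ordinals, as the canonical well-ordered type of order type `ω₁`. -/
abbrev Omega1 : Type := (Cardinal.aleph 1 : Cardinal.{0}).ord.ToType

/-- `C` is a closed unbounded subset of `ω₁`. -/
def IsClub (C : Set Omega1) : Prop :=
  (∀ a, ∃ b ∈ C, a < b) ∧
    ∀ a, (∃ b, b < a) → (∀ b < a, ∃ c ∈ C, b < c ∧ c < a) → a ∈ C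

/-- Jensen's principle `◇`: there is a sequence `A_a ⊆ a` (`a < ω₁`) such that for every
`X ⊆ ω₁` the set of all `a` with `X ∩ a = A_a` meets every closed unbounded subset of `ω₁`
(i.e. it is stationary). -/
def Diamond : Prop :=
  ∃ A : Omega1 → Set Omega1, ∀ X C : Set Omega1, IsClub C → ∃ a ∈ C, X ∩ Iio a = A a

end Pool.Agent.Lib.MP_302921_gt
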