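import Mathlib
import Pool.Agent.Lib.MP_302921_gt.Defs

open Set Filter Topology

namespace Pool.Agent.Lib.MP_302921_gt

universe u v

/-- transfinite recursion with choice -/
theorem exists_rec {I : Type u} [LinearOrder I] [WellFoundedLT I] {β : Type v} [Nonempty β]
    (R : I → (I → β) → β → Prop)
    (hR : ∀ γ f g x, (∀ δ < γ, f δ = g δ) → R γ f x → R γ g x)
    (hstep : ∀ γ f, (∀ δ < γ, R δ f (f δ)) → ∃ x, R γ f x) :
    ∃ f : I → β, ∀ γ, R γ f (f γ) := by
  classical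
  have wf : WellFounded (fun i j : I => i < j) := wellFounded_lt
  let b : β := Classical.arbitrary β
  have hex : ∀ γ f, ∃ x, (∀ δ < γ, R δ f (f δ)) → R γ f x := by
    intro γ f
    by_cases h : ∀ δ < γ, R δ f (f δ)
    · obtain ⟨x, hx⟩ := hstep γ f h
      exact ⟨x, fun _ => hx⟩
    · exact ⟨b, fun h' => absurd h' h⟩
  choose X hX using hex
  let G : ∀ i : I, (∀ j : I, j < i → β) → β := fun i rec =>
    X i (fun j => if hj : j < i then rec j hj else b)
  let f : I → β := wf.fix G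
  have hf : ∀ i, f i = X i (fun j => if j < i then f j else b) := by
    intro i
    have h1 : f i = G i (fun j _ => f j) := wf.fix_eq G i
    rw [h1]
    simp only [G]
    congr 1
  refine ⟨f, fun γ => ?_⟩
  induction γ using wf.induction with
  | _ γ ih =>
    set g : I → β := fun j => if j < γ then f j else b with hg
    have hgf : ∀ j < γ, g j = f j := fun j hj => by simp only [hg, if_pos hj]
    have h1 : ∀ δ < γ, R δ g (g δ) := by
      intro δ hδ
      rw [hgf δ hδ]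
      exact hR δ f g (f δ) (fun ε hε => (hgf ε (hε.trans hδ)).symm) (ih δ hδ)
    have h2 := hX γ g h1
    rw [← hf γ] at h2
    exact hR γ g f _ hgf h2

/-- reflection: closure points of a suitable function reflect a family of properties -/
theorem exists_reflect {I : Type u} [LinearOrder I]
    (hb : ∀ s : Set I, s.Countable → ∃ i, ∀ j ∈ s, j < i)
    (hc : ∀ i : I, (Iio i).Countable)
    {J : Type v} (ℓ : J → I) (hℓ : ∀ i, {j | ℓ j ≤ i}.Countable) (Q : J → I → I → Prop) :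
    ∃ F : I → I, ∀ γ, (∀ δ < γ, F δ < γ) → ∀ j, ℓ j < γ →
      (∀ α < γ, ∃ β < γ, Q j α β) ∨ (∃ α < γ, ∀ β, ¬ Q j α β) := by
  classical
  have hex : ∀ j α, ∃ β, (∃ β', Q j α β') → Q j α β := by
    intro j α
    by_cases h : ∃ β', Q j α β'
    · obtain ⟨β, hβ⟩ := h
      exact ⟨β, fun _ => hβ⟩
    · exact ⟨α, fun h' => absurd h' h⟩
  choose h hh using hex
  have hex' : ∀ j, ∃ α, (∃ α', ∀ β, ¬ Q j α' β) → ∀ β, ¬ Q j α β := by
    intro j
    by_cases h : ∃ α', ∀ β, ¬ Q j α' β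
    · obtain ⟨α, hα⟩ := h
      exact ⟨α, fun _ => hα⟩
    · exact ⟨ℓ j, fun h' => absurd h' h⟩
  choose h' hh' using hex'
  have hc' : ∀ i : I, (Iic i).Countable := by
    intro i
    rw [← Iio_insert]
    exact (hc i).insert i
  have hF : ∀ δ : I, ∃ i, ∀ j, ℓ j ≤ δ → h' j < i ∧ ∀ α ≤ δ, h j α < i := by
    intro δ
    obtain ⟨i, hi⟩ := hb ((h' '' {j | ℓ j ≤ δ}) ∪ (fun p : J × I => h p.1 p.2) ''
      ({j | ℓ j ≤ δ} ×ˢ Iic δ)) (((hℓ δ).image _).union (((hℓ δ).prod (hc' δ)).image _))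
    refine ⟨i, fun j hj => ⟨hi _ (Or.inl ⟨j, hj, rfl⟩), fun α hα =>
      hi _ (Or.inr ⟨(j, α), ⟨hj, hα⟩, rfl⟩)⟩⟩
  choose F hF using hF
  refine ⟨F, fun γ hγ j hj => ?_⟩
  by_cases hall : ∀ α, ∃ β, Q j α β
  · left
    intro α hα
    have hm : max (ℓ j) α < γ := max_lt hj hα
    refine ⟨h j α, ((hF (max (ℓ j) α) j (le_max_left _ _)).2 α (le_max_right _ _)).trans
      (hγ _ hm), hh j α (hall α)⟩
  · right
    push Not at hall
    exact ⟨h' j, ((hF (ℓ j) j le_rfl).1).trans (hγ _ hj), hh' j hall⟩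

end Pool.Agent.Lib.MP_302921_gt
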