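import Mathlib
import Pool.Agent.Lib.MP_302921_gt.Rec

open Set Filter Topology

namespace Pool.Agent.Lib.MP_302921_gt

universe u

/-- data at one level -/
abbrev Dat (I : Type u) : Type u := (I × ℕ → ℕ) × (ℕ → ℕ)

variable {I : Type u} [LinearOrder I]

/-- basic neighbourhoods -/
def U (f : I → Dat I) (x : I × ℕ) (j : ℕ) : Set (I × ℕ) :=
  {z | z = x ∨ (z.1 < x.1 ∧ (f x.1).2 ((f x.1).1 z) = x.2 ∧ j ≤ (f x.1).1 z)}

/-- the function `e⁺` -/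
def ep (f : I → Dat I) (β : I) (z : I × ℕ) : ℕ :=
  if z.1 < β then (f β).2 ((f β).1 z) else z.2

theorem ep_lt {f : I → Dat I} {β : I} {z : I × ℕ} (h : z.1 < β) :
    ep f β z = (f β).2 ((f β).1 z) := by simp only [ep, if_pos h]

theorem ep_eq {f : I → Dat I} {β : I} {z : I × ℕ} (h : z.1 = β) :
    ep f β z = z.2 := by simp only [ep, if_neg h.not_lt]

theorem ep_self {f : I → Dat I} {β : I} {k : ℕ} : ep f β (β, k) = k := ep_eq rfl

theorem U_congr {f g : I → Dat I} {x : I × ℕ} (h : f x.1 = g x.1) (j : ℕ) :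
    U f x j = U g x j := by
  unfold U; rw [h]

theorem mem_U_zero {f : I → Dat I} {x z : I × ℕ} :
    z ∈ U f x 0 ↔ z.1 ≤ x.1 ∧ ep f x.1 z = x.2 := by
  constructor
  · rintro (rfl | ⟨h1, h2, -⟩)
    · exact ⟨le_rfl, ep_eq rfl⟩
    · exact ⟨h1.le, by rw [ep_lt h1, h2]⟩
  · rintro ⟨h1, h2⟩
    rcases h1.eq_or_lt with h | h
    · left
      rw [ep_eq h] at h2
      exact Prod.ext h h2
    · right
      rw [ep_lt h] at h2
      exact ⟨h, h2, Nat.zero_le _⟩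

/-- a set of pairs which is cofinal in `γ` -/
def Big (γ : I) (E : Set ((I × ℕ) × (I × ℕ))) : Prop :=
  ∀ α < γ, ∃ x y : I × ℕ, (x, y) ∈ E ∧ x ≠ y ∧ α < x.1 ∧ x.1 < γ ∧ α < y.1 ∧ y.1 < γ

/-- the inductive requirements -/
structure Req (𝓔 : I → Set (Set ((I × ℕ) × (I × ℕ)))) (γ : I) (f : I → Dat I) (d : Dat I) :
    Prop where
  bdd : ∀ q : I × ℕ, q.1 < γ → ∃ M, ∀ z ∈ U f q 0, d.1 z < M
  coh : ∀ δ < γ, ∃ N, ∀ z : I × ℕ, z.1 < δ → N ≤ (f δ).1 z →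
    d.1 z = d.1 (δ, (f δ).2 ((f δ).1 z))
  cpt : ∀ N, ∃ Q : Finset (I × ℕ), ∀ z : I × ℕ, z.1 < γ → d.1 z < N →
    ∃ q ∈ Q, q.1 < γ ∧ z ∈ U f q 0
  dense : ∀ α < γ, ∀ k j, ∃ z : I × ℕ, α ≤ z.1 ∧ z.1 < γ ∧ j ≤ d.1 z ∧ d.2 (d.1 z) = k
  task : (∃ β, β < γ) → ∀ E ∈ 𝓔 γ, Big γ E → ∀ k l j, ∃ x y : I × ℕ, (x, y) ∈ E ∧
    x.1 < γ ∧ y.1 < γ ∧ d.2 (d.1 x) = k ∧ j ≤ d.1 x ∧ d.2 (d.1 y) = l ∧ j ≤ d.1 y

variable {𝓔 : I → Set (Set ((I × ℕ) × (I × ℕ)))}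

theorem Req.congr {γ : I} {f g : I → Dat I} {d : Dat I} (hfg : ∀ δ < γ, f δ = g δ)
    (h : Req 𝓔 γ f d) : Req 𝓔 γ g d := by
  refine ⟨?_, ?_, ?_, h.dense, h.task⟩
  · intro q hq
    rw [← U_congr (hfg q.1 hq) 0]
    exact h.bdd q hq
  · intro δ hδ
    rw [← hfg δ hδ]
    exact h.coh δ hδ
  · intro N
    obtain ⟨Q, hQ⟩ := h.cpt N
    refine ⟨Q, fun z hz hz' => ?_⟩
    obtain ⟨q, hq1, hq2, hq3⟩ := hQ z hz hz'
    exact ⟨q, hq1, hq2, by rwa [← U_congr (hfg q.1 hq2) 0]⟩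

/-- minimal stage -/
theorem step_bot {γ : I} (hγ : ∀ β, ¬ β < γ) (f : I → Dat I) : ∃ d, Req 𝓔 γ f d := by
  refine ⟨(fun _ => 0, fun _ => 0), ?_, ?_, ?_, ?_, ?_⟩
  · intro q hq; exact absurd hq (hγ _)
  · intro q hq; exact absurd hq (hγ _)
  · intro N
    exact ⟨∅, fun z hz => absurd hz (hγ _)⟩
  · intro q hq; exact absurd hq (hγ _)
  · rintro ⟨β, hβ⟩; exact absurd hβ (hγ _)

theorem bdd_comp (g : ℕ → ℕ) (N : ℕ) : ∃ M, ∀ n < N, g n < M := by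
  refine ⟨(Finset.range N).sup g + 1, fun n hn => ?_⟩
  exact Nat.lt_succ_of_le (Finset.le_sup (Finset.mem_range.2 hn))

/-- successor stage -/
theorem step_succ {γ β : I} (hβ : β < γ) (hβ' : ∀ δ < γ, δ ≤ β) (f : I → Dat I)
    (hf : ∀ δ < γ, Req 𝓔 δ f (f δ)) : ∃ d, Req 𝓔 γ f d := by
  refine ⟨(ep f β, fun n => (Nat.unpair n).1), ?_, ?_, ?_, ?_, ?_⟩
  · intro q hq
    rcases (hβ' q.1 hq).eq_or_lt with h | h
    · refine ⟨q.2 + 1, fun z hz => ?_⟩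
      rw [mem_U_zero, h] at hz
      simp only
      rw [hz.2]
      exact Nat.lt_succ_self _
    · obtain ⟨M, hM⟩ := (hf β hβ).bdd q h
      obtain ⟨M', hM'⟩ := bdd_comp (f β).2 M
      refine ⟨M', fun z hz => ?_⟩
      simp only
      have hz1 : z.1 < β := (mem_U_zero.1 hz).1.trans_lt h
      rw [ep_lt hz1]
      exact hM' _ (hM z hz)
  · intro δ hδ
    rcases (hβ' δ hδ).eq_or_lt with h | h
    · subst h
      refine ⟨0, fun z hz _ => ?_⟩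
      simp only
      rw [ep_lt hz, ep_self]
    · obtain ⟨N, hN⟩ := (hf β hβ).coh δ h
      refine ⟨N, fun z hz hz' => ?_⟩
      simp only
      rw [ep_lt (hz.trans h), ep_lt (by exact h), hN z hz hz']
  · intro N
    refine ⟨(Finset.range N).image fun a => (β, a), fun z hz hz' => ?_⟩
    refine ⟨(β, ep f β z), ?_, hβ, ?_⟩
    · rw [Finset.mem_image]
      exact ⟨_, Finset.mem_range.2 hz', rfl⟩
    · rw [mem_U_zero]
      exact ⟨hβ' _ hz, rfl⟩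
  · intro α hα k j
    refine ⟨(β, Nat.pair k j), hβ' α hα, hβ, ?_, ?_⟩
    · simp only
      rw [ep_self]
      exact Nat.right_le_pair k j
    · simp only
      rw [ep_self]
      simp
  · intro _ E _ hE
    obtain ⟨x, y, -, -, h1, h2, -⟩ := hE β hβ
    exact absurd (hβ' _ h2) (not_le.2 h1)

/-- first index at which `z` is captured -/
noncomputable def first (K : ℕ → Set (I × ℕ)) (z : I × ℕ) : ℕ := sInf {i | z ∈ K i}

omit [LinearOrder I] in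
theorem first_mem {K : ℕ → Set (I × ℕ)} {z : I × ℕ} (h : ∃ i, z ∈ K i) : z ∈ K (first K z) :=
  Nat.sInf_mem (s := {i | z ∈ K i}) h

omit [LinearOrder I] in
theorem first_le {K : ℕ → Set (I × ℕ)} {z : I × ℕ} {i : ℕ} (h : z ∈ K i) : first K z ≤ i :=
  Nat.sInf_le h

omit [LinearOrder I] in
theorem first_eq {K : ℕ → Set (I × ℕ)} {z : I × ℕ} {i : ℕ} (h : z ∈ K i)
    (h' : ∀ i' < i, z ∉ K i') : first K z = i := by
  apply le_antisymm (first_le h)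
  by_contra hcon
  push Not at hcon
  exact h' _ hcon (first_mem ⟨i, h⟩)

/-- the sets used at a limit stage -/
def KK (f : I → Dat I) (ds : ℕ → I) (D : ℕ → Finset ℕ) (i : ℕ) : Set (I × ℕ) :=
  {z | z.1 ≤ ds i ∧ ep f (ds i) z ∈ D i}

theorem limit_core {γ : I} (f : I → Dat I) (hf : ∀ δ < γ, Req 𝓔 δ f (f δ))
    (ds : ℕ → I) (D : ℕ → Finset ℕ) (hds : ∀ i, ds i < γ)
    (N : I → I → ℕ)
    (hN : ∀ δ β, δ < β → β < γ → ∀ z : I × ℕ, z.1 < δ → N δ β ≤ (f δ).1 z →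
      (f β).1 z = (f β).1 (δ, (f δ).2 ((f δ).1 z)))
    (h1 : ∀ q : I × ℕ, q.1 < γ → ∃ i, ∀ z ∈ U f q 0, z ∈ KK f ds D i)
    (h2 : ∀ δ < γ, ∃ i₀, ∀ i, i₀ ≤ i → δ < ds i ∧ ∀ z : I × ℕ, z.1 < δ → (f δ).1 z < N δ (ds i) →
      ∃ i' < i, z ∈ KK f ds D i') :
    (∀ q : I × ℕ, q.1 < γ → ∃ M, ∀ z ∈ U f q 0, first (KK f ds D) z < M) ∧
    (∀ δ < γ, ∃ N, ∀ z : I × ℕ, z.1 < δ → N ≤ (f δ).1 z →
      first (KK f ds D) z = first (KK f ds D) (δ, (f δ).2 ((f δ).1 z))) ∧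
    (∀ N, ∃ Q : Finset (I × ℕ), ∀ z : I × ℕ, z.1 < γ → first (KK f ds D) z < N →
      ∃ q ∈ Q, q.1 < γ ∧ z ∈ U f q 0) := by
  classical
  have hcov : ∀ z : I × ℕ, z.1 < γ → ∃ i, z ∈ KK f ds D i := by
    intro z hz
    obtain ⟨i, hi⟩ := h1 z hz
    exact ⟨i, hi z (Or.inl rfl)⟩
  refine ⟨?_, ?_, ?_⟩
  · intro q hq
    obtain ⟨i, hi⟩ := h1 q hq
    exact ⟨i + 1, fun z hz => Nat.lt_succ_of_le (first_le (hi z hz))⟩
  · intro δ hδ
    obtain ⟨i₀, hi₀⟩ := h2 δ hδ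
    have hsmall : ∀ i, ∃ M, ∀ z : I × ℕ, z.1 < δ → M ≤ (f δ).1 z →
        (z ∈ KK f ds D i ↔ ((δ, (f δ).2 ((f δ).1 z)) : I × ℕ) ∈ KK f ds D i) := by
      intro i
      rcases lt_trichotomy (ds i) δ with h | h | h
      · have hb : ∀ a, ∃ M, ∀ z ∈ U f (ds i, a) 0, (f δ).1 z < M :=
          fun a => (hf δ hδ).bdd (ds i, a) h
        choose M hM using hb
        refine ⟨(D i).sup M, fun z hz hz' => ⟨fun hzK => ?_, fun hyK => ?_⟩⟩
        · exfalso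
          have h3 := hM (ep f (ds i) z) z (mem_U_zero.2 ⟨hzK.1, rfl⟩)
          have h4 : M (ep f (ds i) z) ≤ (D i).sup M := Finset.le_sup (f := M) hzK.2
          omega
        · exact absurd hyK.1 (not_le.2 h)
      · refine ⟨0, fun z hz _ => ?_⟩
        simp only [KK, mem_ofPred_eq, h]
        rw [ep_lt hz, ep_self]
        exact ⟨fun h' => ⟨le_rfl, h'.2⟩, fun h' => ⟨hz.le, h'.2⟩⟩
      · refine ⟨N δ (ds i), fun z hz hz' => ?_⟩
        have h3 := hN δ (ds i) h (hds i) z hz hz'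
        simp only [KK, mem_ofPred_eq]
        rw [ep_lt (hz.trans h), ep_lt (by exact h), h3]
        exact ⟨fun h' => ⟨h.le, h'.2⟩, fun h' => ⟨(hz.trans h).le, h'.2⟩⟩
    choose M hM using hsmall
    refine ⟨(Finset.range i₀).sup M, fun z hz hz' => ?_⟩
    have hlow : ∀ i < i₀,
        (z ∈ KK f ds D i ↔ ((δ, (f δ).2 ((f δ).1 z)) : I × ℕ) ∈ KK f ds D i) := by
      intro i hi
      exact hM i z hz ((Finset.le_sup (f := M) (Finset.mem_range.2 hi)).trans hz')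
    have hhigh : ∀ i, i₀ ≤ i → (∃ i' < i, z ∈ KK f ds D i') ∨
        (z ∈ KK f ds D i ↔ ((δ, (f δ).2 ((f δ).1 z)) : I × ℕ) ∈ KK f ds D i) := by
      intro i hi
      obtain ⟨h3, h4⟩ := hi₀ i hi
      by_cases h5 : (f δ).1 z < N δ (ds i)
      · exact Or.inl (h4 z hz h5)
      · right
        push Not at h5
        have h6 := hN δ (ds i) h3 (hds i) z hz h5
        simp only [KK, mem_ofPred_eq]
        rw [ep_lt (hz.trans h3), ep_lt (by exact h3), h6]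
        exact ⟨fun h' => ⟨h3.le, h'.2⟩, fun h' => ⟨(hz.trans h3).le, h'.2⟩⟩
    have hzc := hcov z (hz.trans hδ)
    have hyc := hcov (δ, (f δ).2 ((f δ).1 z)) hδ
    apply le_antisymm
    · -- `first z ≤ first y`
      by_contra hcon
      push Not at hcon
      have hy := first_mem hyc
      rcases lt_or_ge (first (KK f ds D) (δ, (f δ).2 ((f δ).1 z))) i₀ with h | h
      · exact absurd (first_le ((hlow _ h).2 hy)) (not_le.2 hcon)
      · rcases hhigh _ h with ⟨i', hi', hzi'⟩ | h'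
        · exact absurd (first_le hzi') (not_le.2 (hi'.trans hcon))
        · exact absurd (first_le (h'.2 hy)) (not_le.2 hcon)
    · by_contra hcon
      push Not at hcon
      have hz1 := first_mem hzc
      rcases lt_or_ge (first (KK f ds D) z) i₀ with h | h
      · exact absurd (first_le ((hlow _ h).1 hz1)) (not_le.2 hcon)
      · rcases hhigh _ h with ⟨i', hi', hzi'⟩ | h'
        · exact absurd (first_le hzi') (not_le.2 hi')
        · exact absurd (first_le (h'.1 hz1)) (not_le.2 hcon)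
  · intro N
    refine ⟨(Finset.range N).biUnion fun i => (D i).image fun a => (ds i, a), fun z hz hz' => ?_⟩
    have h3 := first_mem (hcov z hz)
    refine ⟨(ds (first (KK f ds D) z), ep f (ds (first (KK f ds D) z)) z), ?_, hds _, ?_⟩
    · rw [Finset.mem_biUnion]
      exact ⟨_, Finset.mem_range.2 hz', Finset.mem_image.2 ⟨_, h3.2, rfl⟩⟩
    · rw [mem_U_zero]
      exact ⟨h3.1, rfl⟩

end Pool.Agent.Lib.MP_302921_gt
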