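import Mathlib
import Pool.Agent.Lib.MP_302921_gt.Rec

open Set Filter Topology Cardinal

namespace Pool.Agent.Lib.MP_302921_gt

theorem omega1_Iio_countable (i : Omega1) : (Iio i).Countable := by
  rw [countable_iff_lt_aleph_one]
  exact mk_Iio_toType_ord_lt i

theorem omega1_Iic_countable (i : Omega1) : (Iic i).Countable := by
  rw [← Iio_insert]
  exact (omega1_Iio_countable i).insert i

theorem omega1_bound (s : Set Omega1) (hs : s.Countable) : ∃ i, ∀ j ∈ s, j < i := by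
  by_contra hcon
  push Not at hcon
  have h1 : (Set.univ : Set Omega1) ⊆ ⋃ j ∈ s, Iic j := by
    intro i _
    obtain ⟨j, hj, hij⟩ := hcon i
    exact mem_biUnion hj hij
  have h2 : (Set.univ : Set Omega1).Countable :=
    (hs.biUnion fun j _ => omega1_Iic_countable j).mono h1
  rw [countable_iff_lt_aleph_one, mk_univ, mk_ord_toType] at h2
  exact lt_irrefl _ h2

/-- pairs of points of the one-point extension whose levels are below `γ` -/
def below (γ : Omega1) : Set (Option (Omega1 × ℕ) × Option (Omega1 × ℕ)) :=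
  {z | (∀ x, z.1 = some x → x.1 < γ) ∧ ∀ x, z.2 = some x → x.1 < γ}

theorem below_mono {γ δ : Omega1} (h : γ ≤ δ) : below γ ⊆ below δ :=
  fun _ hz => ⟨fun x hx => (hz.1 x hx).trans_le h, fun x hx => (hz.2 x hx).trans_le h⟩

theorem below_countable (γ : Omega1) : (below γ).Countable := by
  have h1 : ({none} ∪ some '' ((Iio γ) ×ˢ (Set.univ : Set ℕ)) :
      Set (Option (Omega1 × ℕ))).Countable :=
    (countable_singleton _).union (((omega1_Iio_countable γ).prod countable_univ).image _)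
  refine (h1.prod h1).mono ?_
  have h2 : ∀ a : Option (Omega1 × ℕ), (∀ x, a = some x → x.1 < γ) →
      a ∈ ({none} ∪ some '' ((Iio γ) ×ˢ (Set.univ : Set ℕ)) : Set (Option (Omega1 × ℕ))) := by
    intro a ha
    cases a with
    | none => exact Or.inl rfl
    | some x => exact Or.inr ⟨x, ⟨ha x rfl, mem_univ _⟩, rfl⟩
  rintro ⟨a, b⟩ ⟨ha, hb⟩
  exact ⟨h2 a ha, h2 b hb⟩

/-- closure points of a function form a closed unbounded set -/
theorem isClub_closure (G : Omega1 → Omega1) :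
    IsClub {γ | (∃ β, β < γ) ∧ ∀ δ < γ, G δ < γ} := by
  classical
  constructor
  · intro a
    -- iterate
    have hstep : ∀ i : Omega1, ∃ j, i < j ∧ ∀ δ ≤ i, G δ < j := by
      intro i
      obtain ⟨j, hj⟩ := omega1_bound (insert i (G '' Iic i))
        (((omega1_Iic_countable i).image G).insert i)
      exact ⟨j, hj i (mem_insert _ _), fun δ hδ => hj _ (mem_insert_of_mem _ ⟨δ, hδ, rfl⟩)⟩
    choose N hN1 hN2 using hstep
    let s : ℕ → Omega1 := fun n => N^[n] a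
    have hs : ∀ n, s (n + 1) = N (s n) := fun n => Function.iterate_succ_apply' N n a
    have hbd : ∃ b, ∀ n, s n < b := by
      obtain ⟨b, hb⟩ := omega1_bound (range s) (countable_range s)
      exact ⟨b, fun n => hb _ ⟨n, rfl⟩⟩
    have wf : WellFounded (fun i j : Omega1 => i < j) := wellFounded_lt
    set b := wf.min {b | ∀ n, s n < b} hbd with hbdef
    have hb1 : ∀ n, s n < b := wf.min_mem {b | ∀ n, s n < b} hbd
    have hb2 : ∀ δ < b, ∃ n, δ ≤ s n := by
      intro δ hδ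
      by_contra hcon
      push Not at hcon
      exact wf.not_lt_min {b | ∀ n, s n < b} hcon hδ
    refine ⟨b, ⟨⟨a, hb1 0⟩, fun δ hδ => ?_⟩, hb1 0⟩
    obtain ⟨n, hn⟩ := hb2 δ hδ
    have h1 := hN2 (s n) δ hn
    rw [← hs n] at h1
    exact h1.trans (hb1 (n + 1))
  · intro a ha h
    refine ⟨ha, fun δ hδ => ?_⟩
    obtain ⟨c, hc, h1, h2⟩ := h δ hδ
    exact (hc.2 δ h1).trans h2

/-- the form of `◇` used in the construction -/
theorem Diamond.guess (h : Diamond) :
    ∃ A : Omega1 → Set (Option (Omega1 × ℕ) × Option (Omega1 × ℕ)),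
      ∀ (Y : Set (Option (Omega1 × ℕ) × Option (Omega1 × ℕ))) (F : Omega1 → Omega1),
        ∃ γ, (∃ β, β < γ) ∧ (∀ δ < γ, F δ < γ) ∧ ∀ z ∈ below γ, z ∈ Y ↔ z ∈ A γ := by
  obtain ⟨A, hA⟩ := h
  -- an injection
  have hinj : ∃ c : Option (Omega1 × ℕ) × Option (Omega1 × ℕ) → Omega1,
      Function.Injective c := by
    have h1 : #(Omega1 × ℕ) ≤ ℵ_ 1 := by
      rw [mk_prod, mk_ord_toType, lift_id, mk_nat, lift_aleph0]
      exact (mul_le_mul_right (aleph0_le_aleph 1) _).trans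
        (mul_eq_self (aleph0_le_aleph 1)).le
    have h2 : #(Option (Omega1 × ℕ)) ≤ ℵ_ 1 := by
      rw [mk_option]
      refine (add_le_add h1 (one_lt_aleph0.le.trans (aleph0_le_aleph 1))).trans ?_
      exact (add_eq_self (aleph0_le_aleph 1)).le
    have h3 : #(Option (Omega1 × ℕ) × Option (Omega1 × ℕ)) ≤ #Omega1 := by
      rw [mk_prod, lift_id, mk_ord_toType]
      exact (mul_le_mul' h2 h2).trans (mul_eq_self (aleph0_le_aleph 1)).le
    obtain ⟨c⟩ := h3
    exact ⟨c, c.injective⟩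
  obtain ⟨c, hc⟩ := hinj
  refine ⟨fun γ => {z | c z ∈ A γ}, fun Y F => ?_⟩
  have hG : ∀ δ : Omega1, ∃ i, F δ < i ∧ ∀ δ' : Omega1, δ' = δ → ∀ z, z ∈ below δ' ∨
      ((∀ x, z.1 = some x → x.1 ≤ δ) ∧ ∀ x, z.2 = some x → x.1 ≤ δ) → c z < i := by
    intro δ
    obtain ⟨ε, hε⟩ := omega1_bound {δ} (countable_singleton _)
    have hδε : δ < ε := hε δ rfl
    obtain ⟨i, hi⟩ := omega1_bound (insert (F δ) (c '' below ε))
      (((below_countable ε).image c).insert _)
    refine ⟨i, hi _ (mem_insert _ _), ?_⟩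
    rintro δ' rfl z (hz | ⟨hz1, hz2⟩)
    · exact hi _ (mem_insert_of_mem _ ⟨z, below_mono hδε.le hz, rfl⟩)
    · exact hi _ (mem_insert_of_mem _ ⟨z, ⟨fun x hx => (hz1 x hx).trans_lt hδε,
        fun x hx => (hz2 x hx).trans_lt hδε⟩, rfl⟩)
  choose G hG1 hG2 using hG
  obtain ⟨γ, ⟨⟨β, hβ⟩, hγ⟩, hguess⟩ := hA (c '' Y) _ (isClub_closure G)
  refine ⟨γ, ⟨β, hβ⟩, fun δ hδ => (hG1 δ).trans (hγ δ hδ), ?_⟩
  -- codes of the pairs below `γ` are below `γ`
  have hcode : ∀ z ∈ below γ, c z < γ := by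
    rintro ⟨a, b⟩ ⟨ha, hb⟩
    have hδ : ∃ δ < γ, (∀ x, a = some x → x.1 ≤ δ) ∧ ∀ x, b = some x → x.1 ≤ δ := by
      have h1 : ∀ a : Option (Omega1 × ℕ), (∀ x, a = some x → x.1 < γ) →
          ∃ δ < γ, ∀ x, a = some x → x.1 ≤ δ := by
        intro a ha
        cases a with
        | none => exact ⟨β, hβ, fun x hx => by cases hx⟩
        | some x => exact ⟨x.1, ha x rfl, fun y hy => by cases hy; exact le_rfl⟩
      obtain ⟨δ, hδ, hδ'⟩ := h1 a ha
      obtain ⟨ε, hε, hε'⟩ := h1 b hb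
      exact ⟨max δ ε, max_lt hδ hε, fun x hx => (hδ' x hx).trans (le_max_left _ _),
        fun x hx => (hε' x hx).trans (le_max_right _ _)⟩
    obtain ⟨δ, hδ, h1, h2⟩ := hδ
    exact (hG2 δ δ rfl (a, b) (Or.inr ⟨h1, h2⟩)).trans (hγ δ hδ)
  intro z hz
  have h1 := hcode z hz
  constructor
  · intro hzY
    have : c z ∈ c '' Y ∩ Iio γ := ⟨⟨z, hzY, rfl⟩, h1⟩
    rw [hguess] at this
    exact this
  · intro hzA
    have : c z ∈ c '' Y ∩ Iio γ := by rw [hguess]; exact hzA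
    obtain ⟨⟨w, hw, hwz⟩, -⟩ := this
    rw [← hc hwz]; exact hw

end Pool.Agent.Lib.MP_302921_gt
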