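import Mathlib
import Pool.Agent.Lib.MP_302921_gt.Construct

open Set Filter Topology

namespace Pool.Agent.Lib.MP_302921_gt

universe u

variable {I : Type u} [LinearOrder I] {𝓔 : I → Set (Set ((I × ℕ) × (I × ℕ)))}

theorem bdd_finset_U {γ β : I} {f : I → Dat I} (hf : ∀ δ < γ, Req 𝓔 δ f (f δ)) (hβ : β < γ)
    (Q : Finset (I × ℕ)) : ∃ c, ∀ q ∈ Q, q.1 < β → ∀ z ∈ U f q 0, ep f β z < c := by
  classical
  have h1 : ∀ q : I × ℕ, ∃ c, q.1 < β → ∀ z ∈ U f q 0, ep f β z < c := by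
    intro q
    by_cases h : q.1 < β
    · obtain ⟨M, hM⟩ := (hf β hβ).bdd q h
      obtain ⟨M', hM'⟩ := bdd_comp (f β).2 M
      refine ⟨M', fun _ z hz => ?_⟩
      have hz1 : z.1 < β := (mem_U_zero.1 hz).1.trans_lt h
      rw [ep_lt hz1]
      exact hM' _ (hM z hz)
    · exact ⟨0, fun h' => absurd h' h⟩
  choose c hc using h1
  refine ⟨Q.sup c, fun q hq hqβ z hz => (hc q hqβ z hz).trans_le (Finset.le_sup hq)⟩

theorem bdd_sublevel {γ δ β : I} {f : I → Dat I} (hf : ∀ δ < γ, Req 𝓔 δ f (f δ)) (hδ : δ < β)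
    (hβ : β < γ) (N : ℕ) : ∃ c, ∀ z : I × ℕ, z.1 < δ → (f δ).1 z < N → ep f β z < c := by
  obtain ⟨Q, hQ⟩ := (hf δ (hδ.trans hβ)).cpt N
  obtain ⟨c, hc⟩ := bdd_finset_U hf hβ Q
  refine ⟨c, fun z hz hz' => ?_⟩
  obtain ⟨q, hq1, hq2, hq3⟩ := hQ z hz hz'
  exact hc q hq1 (hq2.trans hδ) z hq3

theorem bdd_sublevel' {γ δ β : I} {f : I → Dat I} (hf : ∀ δ < γ, Req 𝓔 δ f (f δ)) (hδ : δ < β)
    (hβ : β < γ) (p : ℕ) : ∃ c, ∀ z : I × ℕ, z.1 ≤ δ → ep f δ z ≤ p → ep f β z < c := by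
  classical
  obtain ⟨c, hc⟩ := bdd_finset_U hf hβ ((Finset.range (p + 1)).image fun a => (δ, a))
  refine ⟨c, fun z hz hz' => ?_⟩
  refine hc (δ, ep f δ z) ?_ hδ z (mem_U_zero.2 ⟨hz, rfl⟩)
  rw [Finset.mem_image]
  exact ⟨_, Finset.mem_range.2 (Nat.lt_succ_of_le hz'), rfl⟩

theorem exists_forall_le {Q : ℕ → ℕ → Prop} (hmono : ∀ n c c', c ≤ c' → Q n c → Q n c')
    (h : ∀ n, ∃ c, Q n c) (p : ℕ) : ∃ c, ∀ n ≤ p, Q n c := by
  choose c hc using h
  refine ⟨(Finset.range (p + 1)).sup c, fun n hn => hmono n _ _ ?_ (hc n)⟩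
  exact Finset.le_sup (Finset.mem_range.2 (Nat.lt_succ_of_le hn))

/-- limit stage -/
theorem step_limit {γ : I} (h𝓔 : (𝓔 γ).Countable) (hun : univ ∈ 𝓔 γ)
    (hlim : ∀ β < γ, ∃ β' < γ, β < β') (hne : ∃ β, β < γ) (hcγ : (Iio γ).Countable)
    (f : I → Dat I) (hf : ∀ δ < γ, Req 𝓔 δ f (f δ)) : ∃ d, Req 𝓔 γ f d := by
  classical
  -- enumeration of `γ`
  obtain ⟨d, hd⟩ := hcγ.exists_eq_range hne
  have hdγ : ∀ n, d n < γ := fun n => by
    have : d n ∈ Iio γ := by rw [hd]; exact ⟨n, rfl⟩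
    exact this
  have hdsurj : ∀ δ < γ, ∃ n, d n = δ := fun δ hδ => by
    have : δ ∈ range d := by rw [← hd]; exact hδ
    exact this
  -- the tasks
  set 𝒯 : Set (Set ((I × ℕ) × (I × ℕ)) × ℕ × ℕ) := {t | t.1 ∈ 𝓔 γ ∧ Big γ t.1} with h𝒯
  have h𝒯c : 𝒯.Countable := by
    have : 𝒯 ⊆ (𝓔 γ) ×ˢ (univ : Set (ℕ × ℕ)) := fun t ht => ⟨ht.1, mem_univ _⟩
    exact (h𝓔.prod countable_univ).mono this
  have hbig : Big γ (univ : Set ((I × ℕ) × (I × ℕ))) := by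
    intro α hα
    obtain ⟨β, hβ, hαβ⟩ := hlim α hα
    obtain ⟨β', hβ', hββ'⟩ := hlim β hβ
    refine ⟨(β, 0), (β', 0), mem_univ _, ?_, hαβ, hβ, hαβ.trans hββ', hβ'⟩
    intro h
    exact hββ'.ne (congrArg Prod.fst h)
  obtain ⟨t, ht⟩ := h𝒯c.exists_eq_range ⟨(univ, 0, 0), hun, hbig⟩
  let tk : ℕ → Set ((I × ℕ) × (I × ℕ)) × ℕ × ℕ := fun p => t (Nat.unpair p).1
  have htkB : ∀ p, Big γ (tk p).1 := fun p => by
    have : tk p ∈ 𝒯 := by rw [ht]; exact ⟨_, rfl⟩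
    exact this.2
  have htks : ∀ E ∈ 𝓔 γ, Big γ E → ∀ k l j, ∃ p, j ≤ p ∧ tk p = (E, k, l) := by
    intro E hE hEB k l j
    have : (E, k, l) ∈ range t := by rw [← ht]; exact ⟨hE, hEB⟩
    obtain ⟨m, hm⟩ := this
    refine ⟨Nat.pair m j, Nat.right_le_pair m j, ?_⟩
    simp only [tk, Nat.unpair_pair, hm]
  -- partial suprema
  have hDm : ∀ p : ℕ, ∃ b < γ, ∀ n ≤ p, d n ≤ b := by
    intro p
    induction p with
    | zero => exact ⟨d 0, hdγ 0, fun n hn => by rw [Nat.le_zero.1 hn]⟩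
    | succ p ih =>
      obtain ⟨b, hb, hb'⟩ := ih
      refine ⟨max b (d (p + 1)), max_lt hb (hdγ _), fun n hn => ?_⟩
      rcases Nat.le_succ_iff.1 hn with h | h
      · exact (hb' n h).trans (le_max_left _ _)
      · rw [h]; exact le_max_right _ _
  choose Dm hDm1 hDm2 using hDm
  -- choice of pairs
  have hG : ∀ p : ℕ, ∀ α : I, ∃ w : (I × ℕ) × (I × ℕ) × Bool, α < γ →
      (w.1 ≠ w.2.1 ∧ w.1.1 ≤ w.2.1.1 ∧ α < w.1.1 ∧ w.2.1.1 < γ ∧
      ((w.2.2 = true ∧ (w.1, w.2.1) ∈ (tk p).1) ∨ (w.2.2 = false ∧ (w.2.1, w.1) ∈ (tk p).1))) := by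
    intro p α
    by_cases hα : α < γ
    · obtain ⟨x, y, hxy, hne', h1, h2, h3, h4⟩ := htkB p α hα
      rcases le_total x.1 y.1 with h | h
      · exact ⟨(x, y, true), fun _ => ⟨hne', h, h1, h4, Or.inl ⟨rfl, hxy⟩⟩⟩
      · exact ⟨(y, x, false), fun _ => ⟨hne'.symm, h, h3, h2, Or.inr ⟨rfl, hxy⟩⟩⟩
    · obtain ⟨β, -⟩ := hne
      exact ⟨((β, 0), (β, 0), true), fun h => absurd h hα⟩
  choose G hG using hG
  let h : ℕ → (I × ℕ) × (I × ℕ) × Bool := fun p =>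
    Nat.rec (G 0 (Dm 0)) (fun p w => G (p + 1) (max (Dm (p + 1)) w.2.1.1)) p
  have hh0 : h 0 = G 0 (Dm 0) := rfl
  have hhs : ∀ p, h (p + 1) = G (p + 1) (max (Dm (p + 1)) (h p).2.1.1) := fun p => rfl
  have hΦ : ∀ p, (h p).1 ≠ (h p).2.1 ∧ (h p).1.1 ≤ (h p).2.1.1 ∧ Dm p < (h p).1.1 ∧
      (h p).2.1.1 < γ ∧ (((h p).2.2 = true ∧ ((h p).1, (h p).2.1) ∈ (tk p).1) ∨
        ((h p).2.2 = false ∧ ((h p).2.1, (h p).1) ∈ (tk p).1)) := by
    intro p
    induction p with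
    | zero =>
      rw [hh0]
      exact hG 0 (Dm 0) (hDm1 0)
    | succ p ih =>
      rw [hhs]
      have h1 := hG (p + 1) (max (Dm (p + 1)) (h p).2.1.1) (max_lt (hDm1 _) ih.2.2.2.1)
      exact ⟨h1.1, h1.2.1, (le_max_left _ _).trans_lt h1.2.2.1, h1.2.2.2.1, h1.2.2.2.2⟩
  have hΨ : ∀ p, (h p).2.1.1 < (h (p + 1)).1.1 := by
    intro p
    rw [hhs]
    have h1 := hG (p + 1) (max (Dm (p + 1)) (h p).2.1.1) (max_lt (hDm1 _) (hΦ p).2.2.2.1)
    exact (le_max_right _ _).trans_lt h1.2.2.1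
  let x : ℕ → I × ℕ := fun p => (h p).1
  let y : ℕ → I × ℕ := fun p => (h p).2.1
  have hxy : ∀ p, x p ≠ y p := fun p => (hΦ p).1
  have hxyle : ∀ p, (x p).1 ≤ (y p).1 := fun p => (hΦ p).2.1
  have hyγ : ∀ p, (y p).1 < γ := fun p => (hΦ p).2.2.2.1
  have hxγ : ∀ p, (x p).1 < γ := fun p => (hxyle p).trans_lt (hyγ p)
  have hdx : ∀ p, ∀ n ≤ p, d n < (x p).1 := fun p n hn =>
    (hDm2 p n hn).trans_lt (hΦ p).2.2.1
  have hyx : ∀ p, (y p).1 < (x (p + 1)).1 := hΨ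
  have hyx' : ∀ p p', p' < p → (y p').1 < (x p).1 := by
    intro p
    induction p with
    | zero => intro p' hp'; omega
    | succ p ih =>
      intro p' hp'
      rcases Nat.lt_succ_iff_lt_or_eq.1 hp' with h1 | h1
      · exact ((ih p' h1).trans_le (hxyle p)).trans (hyx p)
      · rw [h1]; exact hyx p
  have hdy : ∀ p, ∀ n ≤ p, d n < (y p).1 := fun p n hn => (hdx p n hn).trans_le (hxyle p)
  -- coherence constants
  have hN : ∀ δ β, ∃ N, δ < β → β < γ → ∀ z : I × ℕ, z.1 < δ → N ≤ (f δ).1 z →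
      (f β).1 z = (f β).1 (δ, (f δ).2 ((f δ).1 z)) := by
    intro δ β
    by_cases h1 : δ < β ∧ β < γ
    · obtain ⟨N, hN⟩ := (hf β h1.2).coh δ h1.1
      exact ⟨N, fun _ _ => hN⟩
    · exact ⟨0, fun h2 h3 => absurd ⟨h2, h3⟩ h1⟩
  choose N hN using hN
  -- the constants `c p`
  have hc : ∀ p, ∃ c : ℕ, (y p).2 < c ∧ ∀ n ≤ p,
      (∀ z : I × ℕ, z.1 < d n → (f (d n)).1 z < N (d n) (x (p + 1)).1 → ep f (y p).1 z < c) ∧
      (∀ z : I × ℕ, z.1 < d n → (f (d n)).1 z < N (d n) (y (p + 1)).1 → ep f (y p).1 z < c) ∧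
      (∀ z : I × ℕ, z.1 ≤ d n → ep f (d n) z ≤ p → ep f (y p).1 z < c) := by
    intro p
    have h1 : ∃ c, ∀ n ≤ p, (n ≤ p →
      (∀ z : I × ℕ, z.1 < d n → (f (d n)).1 z < N (d n) (x (p + 1)).1 → ep f (y p).1 z < c) ∧
      (∀ z : I × ℕ, z.1 < d n → (f (d n)).1 z < N (d n) (y (p + 1)).1 → ep f (y p).1 z < c) ∧
      (∀ z : I × ℕ, z.1 ≤ d n → ep f (d n) z ≤ p → ep f (y p).1 z < c)) := by
      refine exists_forall_le (Q := fun n c => (n ≤ p →
      (∀ z : I × ℕ, z.1 < d n → (f (d n)).1 z < N (d n) (x (p + 1)).1 → ep f (y p).1 z < c) ∧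
      (∀ z : I × ℕ, z.1 < d n → (f (d n)).1 z < N (d n) (y (p + 1)).1 → ep f (y p).1 z < c) ∧
      (∀ z : I × ℕ, z.1 ≤ d n → ep f (d n) z ≤ p → ep f (y p).1 z < c))) ?_ ?_ p
      · intro n c c' hcc' h1 hn
        obtain ⟨h2, h3, h4⟩ := h1 hn
        exact ⟨fun z a b => (h2 z a b).trans_le hcc', fun z a b => (h3 z a b).trans_le hcc',
          fun z a b => (h4 z a b).trans_le hcc'⟩
      · intro n
        by_cases hn : n ≤ p
        · obtain ⟨c1, hc1⟩ := bdd_sublevel hf (hdy p n hn) (hyγ p) (N (d n) (x (p + 1)).1)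
          obtain ⟨c2, hc2⟩ := bdd_sublevel hf (hdy p n hn) (hyγ p) (N (d n) (y (p + 1)).1)
          obtain ⟨c3, hc3⟩ := bdd_sublevel' hf (hdy p n hn) (hyγ p) p
          refine ⟨max c1 (max c2 c3), fun _ => ⟨?_, ?_, ?_⟩⟩
          · exact fun z a b => (hc1 z a b).trans_le (le_max_left _ _)
          · exact fun z a b => (hc2 z a b).trans_le
              ((le_max_left _ _).trans (le_max_right _ _))
          · exact fun z a b => (hc3 z a b).trans_le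
              ((le_max_right _ _).trans (le_max_right _ _))
        · exact ⟨0, fun h' => absurd h' hn⟩
    obtain ⟨c, hc⟩ := h1
    refine ⟨max c ((y p).2 + 1), (Nat.lt_succ_self _).trans_le (le_max_right _ _), ?_⟩
    intro n hn
    obtain ⟨h2, h3, h4⟩ := hc n hn hn
    exact ⟨fun z a b => (h2 z a b).trans_le (le_max_left _ _),
      fun z a b => (h3 z a b).trans_le (le_max_left _ _),
      fun z a b => (h4 z a b).trans_le (le_max_left _ _)⟩
  choose c hc1 hc2 using hc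
  let ds : ℕ → I := fun i => if i % 2 = 0 then (x (i / 2)).1 else (y (i / 2)).1
  let D : ℕ → Finset ℕ := fun i => if i % 2 = 0 then {(x (i / 2)).2} else Finset.range (c (i / 2))
  have hds0 : ∀ p, ds (2 * p) = (x p).1 := fun p => by
    simp only [ds]
    rw [if_pos (by omega), show 2 * p / 2 = p by omega]
  have hds1 : ∀ p, ds (2 * p + 1) = (y p).1 := fun p => by
    simp only [ds]
    rw [if_neg (by omega), show (2 * p + 1) / 2 = p by omega]
  have hD0 : ∀ p, D (2 * p) = {(x p).2} := fun p => by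
    simp only [D]
    rw [if_pos (by omega), show 2 * p / 2 = p by omega]
  have hD1 : ∀ p, D (2 * p + 1) = Finset.range (c p) := fun p => by
    simp only [D]
    rw [if_neg (by omega), show (2 * p + 1) / 2 = p by omega]
  have hpar : ∀ i : ℕ, ∃ p, i = 2 * p ∨ i = 2 * p + 1 := fun i => ⟨i / 2, by omega⟩
  have hds : ∀ i, ds i < γ := by
    intro i
    obtain ⟨p, rfl | rfl⟩ := hpar i
    · rw [hds0]; exact hxγ p
    · rw [hds1]; exact hyγ p
  have hK1 : ∀ p (z : I × ℕ), z ∈ KK f ds D (2 * p + 1) ↔ z.1 ≤ (y p).1 ∧ ep f (y p).1 z < c p := by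
    intro p z
    simp only [KK, mem_ofPred_eq, hds1, hD1, Finset.mem_range]
  have hK0 : ∀ p (z : I × ℕ), z ∈ KK f ds D (2 * p) ↔
      z.1 ≤ (x p).1 ∧ ep f (x p).1 z = (x p).2 := by
    intro p z
    simp only [KK, mem_ofPred_eq, hds0, hD0, Finset.mem_singleton]
  have h1 : ∀ q : I × ℕ, q.1 < γ → ∃ i, ∀ z ∈ U f q 0, z ∈ KK f ds D i := by
    intro q hq
    obtain ⟨n, hn⟩ := hdsurj q.1 hq
    refine ⟨2 * (max n q.2) + 1, fun z hz => ?_⟩
    rw [hK1]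
    rw [mem_U_zero] at hz
    have h3 := (hc2 (max n q.2) n (le_max_left _ _)).2.2 z (by rw [hn]; exact hz.1)
      (by rw [hn, hz.2]; exact le_max_right _ _)
    refine ⟨?_, h3⟩
    have h4 := hdy (max n q.2) n (le_max_left _ _)
    rw [hn] at h4
    exact hz.1.trans h4.le
  have h2 : ∀ δ < γ, ∃ i₀, ∀ i, i₀ ≤ i → δ < ds i ∧ ∀ z : I × ℕ, z.1 < δ →
      (f δ).1 z < N δ (ds i) → ∃ i' < i, z ∈ KK f ds D i' := by
    intro δ hδ
    obtain ⟨n, rfl⟩ := hdsurj δ hδ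
    refine ⟨2 * n + 2, fun i hi => ?_⟩
    obtain ⟨p, rfl | rfl⟩ := hpar i
    · rw [hds0]
      obtain ⟨p', rfl⟩ : ∃ p', p = p' + 1 := ⟨p - 1, by omega⟩
      refine ⟨hdx (p' + 1) n (by omega), fun z hz hz' => ⟨2 * p' + 1, by omega, ?_⟩⟩
      rw [hK1]
      exact ⟨(hz.trans (hdy p' n (by omega))).le, (hc2 p' n (by omega)).1 z hz hz'⟩
    · rw [hds1]
      obtain ⟨p', rfl⟩ : ∃ p', p = p' + 1 := ⟨p - 1, by omega⟩
      refine ⟨hdy (p' + 1) n (by omega), fun z hz hz' => ⟨2 * p' + 1, by omega, ?_⟩⟩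
      rw [hK1]
      exact ⟨(hz.trans (hdy p' n (by omega))).le, (hc2 p' n (by omega)).2.1 z hz hz'⟩
  obtain ⟨r1, r2, r3⟩ := limit_core f hf ds D hds N hN h1 h2
  -- values of `first` at the chosen points
  have hdslt : ∀ p, ∀ i < 2 * p, ds i < (x p).1 := by
    intro p i hi
    obtain ⟨p', rfl | rfl⟩ := hpar i
    · rw [hds0]
      exact (hxyle p').trans_lt (hyx' p p' (by omega))
    · rw [hds1]
      exact hyx' p p' (by omega)
  have hfx : ∀ p, first (KK f ds D) (x p) = 2 * p := by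
    intro p
    apply first_eq
    · rw [hK0]
      exact ⟨le_rfl, ep_eq rfl⟩
    · intro i hi hmem
      exact absurd hmem.1 (not_le.2 (hdslt p i hi))
  have hfy : ∀ p, first (KK f ds D) (y p) = 2 * p + 1 := by
    intro p
    apply first_eq
    · rw [hK1]
      refine ⟨le_rfl, ?_⟩
      rw [ep_eq rfl]
      exact hc1 p
    · intro i hi hmem
      rcases Nat.lt_succ_iff_lt_or_eq.1 hi with h3 | h3
      · exact absurd hmem.1 (not_le.2 ((hdslt p i h3).trans_le (hxyle p)))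
      · subst h3
        rw [hK0] at hmem
        have h4 : (y p).1 = (x p).1 := le_antisymm hmem.1 (hxyle p)
        have h5 := hmem.2
        rw [ep_eq h4] at h5
        exact hxy p (Prod.ext h4 h5).symm
  let κ : ℕ → ℕ := fun i => if i % 2 = 0 then
      (if (h (i / 2)).2.2 = true then (tk (i / 2)).2.1 else (tk (i / 2)).2.2)
    else (if (h (i / 2)).2.2 = true then (tk (i / 2)).2.2 else (tk (i / 2)).2.1)
  have hκ0 : ∀ p, κ (2 * p) = if (h p).2.2 = true then (tk p).2.1 else (tk p).2.2 := fun p => by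
    simp only [κ]
    rw [if_pos (by omega), show 2 * p / 2 = p by omega]
  have hκ1 : ∀ p, κ (2 * p + 1) = if (h p).2.2 = true then (tk p).2.2 else (tk p).2.1 :=
    fun p => by
    simp only [κ]
    rw [if_neg (by omega), show (2 * p + 1) / 2 = p by omega]
  have htask : ∀ E ∈ 𝓔 γ, Big γ E → ∀ k l j, ∃ p, j ≤ p ∧
      ((((x p, y p) ∈ E) ∧ κ (2 * p) = k ∧ κ (2 * p + 1) = l) ∨
       (((y p, x p) ∈ E) ∧ κ (2 * p + 1) = k ∧ κ (2 * p) = l)) := by
    intro E hE hEB k l j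
    obtain ⟨p, hp, hp'⟩ := htks E hE hEB k l j
    refine ⟨p, hp, ?_⟩
    rcases (hΦ p).2.2.2.2 with ⟨h3, h4⟩ | ⟨h3, h4⟩
    · left
      rw [hp'] at h4
      refine ⟨h4, ?_, ?_⟩
      · rw [hκ0, if_pos h3, hp']
      · rw [hκ1, if_pos h3, hp']
    · right
      rw [hp'] at h4
      refine ⟨h4, ?_, ?_⟩
      · rw [hκ1, if_neg (by rw [h3]; decide), hp']
      · rw [hκ0, if_neg (by rw [h3]; decide), hp']
  refine ⟨(first (KK f ds D), κ), r1, r2, r3, ?_, ?_⟩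
  · intro α hα k j
    obtain ⟨n, rfl⟩ := hdsurj α hα
    obtain ⟨p, hp, hp'⟩ := htask univ hun hbig k 0 (max n j)
    have hnp : n ≤ p := (le_max_left _ _).trans hp
    have hjp : j ≤ p := (le_max_right _ _).trans hp
    rcases hp' with ⟨-, h3, -⟩ | ⟨-, h3, -⟩
    · refine ⟨x p, (hdx p n hnp).le, hxγ p, ?_, ?_⟩
      · simp only; rw [hfx]; omega
      · simp only; rw [hfx]; exact h3
    · refine ⟨y p, (hdy p n hnp).le, hyγ p, ?_, ?_⟩
      · simp only; rw [hfy]; omega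
      · simp only; rw [hfy]; exact h3
  · intro _ E hE hEB k l j
    obtain ⟨p, hp, hp'⟩ := htask E hE hEB k l j
    rcases hp' with ⟨h3, h4, h5⟩ | ⟨h3, h4, h5⟩
    · refine ⟨x p, y p, h3, hxγ p, hyγ p, ?_, ?_, ?_, ?_⟩
      · simp only; rw [hfx]; exact h4
      · simp only; rw [hfx]; omega
      · simp only; rw [hfy]; exact h5
      · simp only; rw [hfy]; omega
    · refine ⟨y p, x p, h3, hyγ p, hxγ p, ?_, ?_, ?_, ?_⟩
      · simp only; rw [hfy]; exact h4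
      · simp only; rw [hfy]; omega
      · simp only; rw [hfx]; exact h5
      · simp only; rw [hfx]; omega

/-- the construction -/
theorem exists_data [WellFoundedLT I] (hc : ∀ i : I, (Iio i).Countable)
    (h𝓔 : ∀ i, (𝓔 i).Countable) (hun : ∀ i, univ ∈ 𝓔 i) :
    ∃ f : I → Dat I, ∀ γ, Req 𝓔 γ f (f γ) := by
  apply exists_rec (R := fun γ f d => Req 𝓔 γ f d)
  · intro γ f g x hfg h
    exact h.congr hfg
  · intro γ f hf
    by_cases hne : ∃ β, β < γ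
    · by_cases hlim : ∀ β < γ, ∃ β' < γ, β < β'
      · exact step_limit (h𝓔 γ) (hun γ) hlim hne (hc γ) f hf
      · push Not at hlim
        obtain ⟨β, hβ, hβ'⟩ := hlim
        exact step_succ hβ hβ' f hf
    · push Not at hne
      exact step_bot (fun β => not_lt.2 (hne β)) f

end Pool.Agent.Lib.MP_302921_gt
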