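import Mathlib
import Pool.Agent.Lib.MP_302921_gt.Limit

open Set Filter Topology

namespace Pool.Agent.Lib.MP_302921_gt

universe u

variable {I : Type u} [LinearOrder I]

/-- the space of all points -/
structure Sp (_f : I → Dat I) : Type u where
  /-- the underlying pair -/
  pt : I × ℕ

/-- level of a point -/
def Sp.lv {f : I → Dat I} (z : Sp f) : I := z.pt.1

/-- the value `e_γ(z)` -/
def Sp.e {f : I → Dat I} (γ : I) (z : Sp f) : ℕ := (f γ).1 z.pt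

/-- basic neighbourhood -/
def Sp.nb {f : I → Dat I} (x : Sp f) (j : ℕ) : Set (Sp f) :=
  {z | z = x ∨ (z.lv < x.lv ∧ (f x.lv).2 (z.e x.lv) = x.pt.2 ∧ j ≤ z.e x.lv)}

theorem Sp.mem_nb {f : I → Dat I} {x z : Sp f} {j : ℕ} : z ∈ x.nb j ↔ z.pt ∈ U f x.pt j := by
  constructor
  · rintro (rfl | ⟨h1, h2, h3⟩)
    · exact Or.inl rfl
    · exact Or.inr ⟨h1, h2, h3⟩
  · rintro (h | ⟨h1, h2, h3⟩)
    · left
      cases x; cases z
      simp only at h
      rw [h]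
    · exact Or.inr ⟨h1, h2, h3⟩

theorem Sp.nb_anti {f : I → Dat I} (x : Sp f) {i j : ℕ} (h : i ≤ j) : x.nb j ⊆ x.nb i := by
  rintro z (rfl | ⟨h1, h2, h3⟩)
  · exact Or.inl rfl
  · exact Or.inr ⟨h1, h2, h.trans h3⟩

theorem Sp.self_mem {f : I → Dat I} (x : Sp f) (j : ℕ) : x ∈ x.nb j := Or.inl rfl

instance (f : I → Dat I) : TopologicalSpace (Sp f) where
  IsOpen O := ∀ x ∈ O, ∃ j, x.nb j ⊆ O
  isOpen_univ := fun _ _ => ⟨0, subset_univ _⟩
  isOpen_inter := by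
    intro s t hs ht x hx
    obtain ⟨i, hi⟩ := hs x hx.1
    obtain ⟨j, hj⟩ := ht x hx.2
    exact ⟨max i j, subset_inter ((x.nb_anti (le_max_left _ _)).trans hi)
      ((x.nb_anti (le_max_right _ _)).trans hj)⟩
  isOpen_sUnion := by
    intro s hs x hx
    obtain ⟨O, hO, hxO⟩ := hx
    obtain ⟨j, hj⟩ := hs O hO x hxO
    exact ⟨j, hj.trans (subset_sUnion_of_mem hO)⟩

theorem Sp.isOpen_iff {f : I → Dat I} {O : Set (Sp f)} :
    IsOpen O ↔ ∀ x ∈ O, ∃ j, x.nb j ⊆ O := Iff.rfl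

theorem Sp.lv_le {f : I → Dat I} {x z : Sp f} {j : ℕ} (h : z ∈ x.nb j) : z.lv ≤ x.lv := by
  rcases h with rfl | ⟨h, -⟩
  · exact le_rfl
  · exact h.le

theorem Sp.isOpen_lt {f : I → Dat I} (γ : I) : IsOpen {z : Sp f | z.lv < γ} :=
  fun _ hx => ⟨0, fun _ hz => (Sp.lv_le hz).trans_lt hx⟩

theorem Sp.isOpen_le {f : I → Dat I} (γ : I) : IsOpen {z : Sp f | z.lv ≤ γ} :=
  fun _ hx => ⟨0, fun _ hz => (Sp.lv_le hz).trans hx⟩

variable {𝓔 : I → Set (Set ((I × ℕ) × (I × ℕ)))} {f : I → Dat I}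

/-- the retraction on the locally compact space -/
noncomputable def Sp.ret (γ : I) (z : Sp f) : Sp f := by
  classical
  exact if z.lv < γ then ⟨(γ, (f γ).2 (z.e γ))⟩ else z

theorem Sp.ret_lt {γ : I} {z : Sp f} (h : z.lv < γ) : z.ret γ = ⟨(γ, (f γ).2 (z.e γ))⟩ := by
  unfold Sp.ret; rw [if_pos h]

theorem Sp.ret_ge {γ : I} {z : Sp f} (h : γ ≤ z.lv) : z.ret γ = z := by
  unfold Sp.ret; rw [if_neg (not_lt.2 h)]

theorem Sp.le_lv_ret (γ : I) (z : Sp f) : γ ≤ (z.ret γ).lv := by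
  rcases lt_or_ge z.lv γ with h | h
  · rw [Sp.ret_lt h]; exact le_rfl
  · rw [Sp.ret_ge h]; exact h

/-- for `w` in `{lv < γ}` with `e_γ(w)` large, `e_δ(w) = e_δ(r_γ(w))` -/
theorem Sp.coh_ret (hf : ∀ γ, Req 𝓔 γ f (f γ)) {γ δ : I} (h : γ < δ) :
    ∃ N, ∀ w : Sp f, w.lv < γ → N ≤ w.e γ → w.e δ = (w.ret γ).e δ := by
  obtain ⟨N, hN⟩ := (hf δ).coh γ h
  refine ⟨N, fun w hw hw' => ?_⟩
  rw [Sp.ret_lt hw]
  exact hN w.pt hw hw'

/-- coherence in terms of neighbourhoods: `e_γ` is constant on `nb z j` -/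
theorem Sp.const (hf : ∀ γ, Req 𝓔 γ f (f γ)) {γ : I} {z : Sp f} (hz : z.lv < γ) :
    ∃ j, ∀ w ∈ z.nb j, w.e γ = z.e γ := by
  obtain ⟨N, hN⟩ := Sp.coh_ret hf hz
  refine ⟨N, fun w hw => ?_⟩
  rcases hw with rfl | ⟨h1, h2, h3⟩
  · rfl
  · rw [hN w h1 h3, Sp.ret_lt h1, h2]
    rfl

theorem Sp.isOpen_nb (hf : ∀ γ, Req 𝓔 γ f (f γ)) (x : Sp f) (j : ℕ) : IsOpen (x.nb j) := by
  rw [Sp.isOpen_iff]
  rintro z (rfl | ⟨h1, h2, h3⟩)
  · exact ⟨j, Subset.rfl⟩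
  · obtain ⟨i, hi⟩ := Sp.const hf h1
    refine ⟨i, fun w hw => Or.inr ⟨(Sp.lv_le hw).trans_lt h1, ?_, ?_⟩⟩
    · rw [hi w hw]; exact h2
    · rw [hi w hw]; exact h3

theorem Sp.nb_mem_nhds (hf : ∀ γ, Req 𝓔 γ f (f γ)) (x : Sp f) (j : ℕ) : x.nb j ∈ 𝓝 x :=
  (Sp.isOpen_nb hf x j).mem_nhds (x.self_mem j)

theorem Sp.mem_nhds_iff (hf : ∀ γ, Req 𝓔 γ f (f γ)) {x : Sp f} {V : Set (Sp f)} :
    V ∈ 𝓝 x ↔ ∃ j, x.nb j ⊆ V := by
  constructor
  · intro h
    obtain ⟨O, hO, hO2, hx⟩ := _root_.mem_nhds_iff.1 h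
    obtain ⟨j, hj⟩ := Sp.isOpen_iff.1 hO2 x hx
    exact ⟨j, hj.trans hO⟩
  · rintro ⟨j, hj⟩
    exact mem_of_superset (Sp.nb_mem_nhds hf x j) hj

theorem Sp.t2 (hf : ∀ γ, Req 𝓔 γ f (f γ)) : T2Space (Sp f) := by
  have key : ∀ x y : Sp f, x.lv < y.lv → ∃ i j, Disjoint (x.nb i) (y.nb j) := by
    intro x y hxy
    obtain ⟨i, hi⟩ := Sp.const hf hxy
    refine ⟨i, x.e y.lv + 1, ?_⟩
    rw [Set.disjoint_left]
    rintro w hw (rfl | ⟨-, -, h3⟩)
    · exact absurd (Sp.lv_le hw) (not_le.2 hxy)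
    · have h4 := hi w hw
      omega
  refine ⟨fun x y hxy => ?_⟩
  have : ∃ i j, Disjoint (x.nb i) (y.nb j) := by
    rcases lt_trichotomy x.lv y.lv with h | h | h
    · exact key x y h
    · refine ⟨0, 0, ?_⟩
      rw [Set.disjoint_left]
      intro w hw hw'
      have h1 := mem_U_zero.1 (Sp.mem_nb.1 hw)
      have h2 := mem_U_zero.1 (Sp.mem_nb.1 hw')
      apply hxy
      have h3 : x.pt.1 = y.pt.1 := h
      have h4 : x.pt = y.pt := by
        refine Prod.ext h3 ?_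
        rw [← h1.2, ← h2.2, h3]
      cases x; cases y
      simp only at h4
      rw [h4]
    · obtain ⟨i, j, hij⟩ := key y x h
      exact ⟨j, i, hij.symm⟩
  obtain ⟨i, j, hij⟩ := this
  exact ⟨_, _, Sp.isOpen_nb hf x i, Sp.isOpen_nb hf y j, x.self_mem i, y.self_mem j, hij⟩

/-- unions of fibers of `e_γ` are open -/
theorem Sp.isOpen_fiber (hf : ∀ γ, Req 𝓔 γ f (f γ)) (γ : I) (s : Set ℕ) :
    IsOpen {z : Sp f | z.lv < γ ∧ z.e γ ∈ s} := by
  rw [Sp.isOpen_iff]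
  rintro z ⟨h1, h2⟩
  obtain ⟨i, hi⟩ := Sp.const hf h1
  refine ⟨i, fun w hw => ⟨(Sp.lv_le hw).trans_lt h1, ?_⟩⟩
  rw [hi w hw]; exact h2

theorem Sp.cpt (hf : ∀ γ, Req 𝓔 γ f (f γ)) (γ : I) (N : ℕ) :
    ∃ Q : Finset (Sp f), (∀ q ∈ Q, q.lv < γ) ∧
      ∀ z : Sp f, z.lv < γ → z.e γ < N → ∃ q ∈ Q, z ∈ q.nb 0 := by
  classical
  obtain ⟨Q, hQ⟩ := (hf γ).cpt N
  refine ⟨(Q.filter (fun q => q.1 < γ)).image fun q => ⟨q⟩, ?_, ?_⟩
  · intro q hq
    obtain ⟨p, hp, rfl⟩ := Finset.mem_image.1 hq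
    exact (Finset.mem_filter.1 hp).2
  · intro z h1 h2
    obtain ⟨q, hq1, hq2, hq3⟩ := hQ z.pt h1 h2
    exact ⟨⟨q⟩, Finset.mem_image.2 ⟨q, Finset.mem_filter.2 ⟨hq1, hq2⟩, rfl⟩, Sp.mem_nb.2 hq3⟩

theorem Sp.isCompact_nb_zero [WellFoundedLT I] (hf : ∀ γ, Req 𝓔 γ f (f γ)) (x : Sp f) :
    IsCompact (x.nb 0) := by
  have wf : WellFounded (fun i j : I => i < j) := wellFounded_lt
  have main : ∀ γ : I, ∀ x : Sp f, x.lv = γ → IsCompact (x.nb 0) := by
    intro γ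
    induction γ using wf.induction with
    | _ γ ih =>
      intro x hx
      subst hx
      apply isCompact_of_finite_subcover
      intro ι 𝒰 hopen hcov
      obtain ⟨i₀, hi₀⟩ := mem_iUnion.1 (hcov (x.self_mem 0))
      obtain ⟨j, hj⟩ := Sp.isOpen_iff.1 (hopen i₀) x hi₀
      -- the remaining part
      obtain ⟨Q, hQ1, hQ⟩ := Sp.cpt hf x.lv j
      have hcomp : ∀ q : Sp f, ∃ t : Finset ι, q.lv < x.lv →
          (q.nb 0) ∩ x.nb 0 ∩ {z : Sp f | z.lv < x.lv ∧ z.e x.lv < j} ⊆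
          ⋃ i ∈ t, 𝒰 i := by
        intro q
        by_cases hq : q.lv < x.lv
        · have hc : IsCompact (q.nb 0) := ih q.lv hq q rfl
          -- cover by the `𝒰 i` and the complement part
          let W : Option ι → Set (Sp f) := fun o => match o with
            | none => {z : Sp f | z.lv < x.lv ∧
                (z.e x.lv) ∈ {n : ℕ | ¬ (n < j ∧ (f x.lv).2 n = x.pt.2)}}
            | some i => 𝒰 i
          have hW : ∀ o, IsOpen (W o) := by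
            intro o
            cases o with
            | none => exact Sp.isOpen_fiber hf _ _
            | some i => exact hopen i
          have hWc : q.nb 0 ⊆ ⋃ o, W o := by
            intro z hz
            have hzl : z.lv < x.lv := (Sp.lv_le hz).trans_lt hq
            by_cases h1 : z.e x.lv < j ∧ (f x.lv).2 (z.e x.lv) = x.pt.2
            · have h2 : z ∈ x.nb 0 := Or.inr ⟨hzl, h1.2, Nat.zero_le _⟩
              obtain ⟨i, hi⟩ := mem_iUnion.1 (hcov h2)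
              exact mem_iUnion.2 ⟨some i, hi⟩
            · exact mem_iUnion.2 ⟨none, hzl, h1⟩
          obtain ⟨t, ht⟩ := hc.elim_finite_subcover W hW hWc
          refine ⟨t.eraseNone, fun _ z hz => ?_⟩
          obtain ⟨⟨hz1, hz2⟩, hz3, hz4⟩ := hz
          obtain ⟨o, ho⟩ := mem_iUnion.1 (ht hz1)
          obtain ⟨hot, hzo⟩ := mem_iUnion.1 ho
          cases o with
          | none =>
            exfalso
            apply hzo.2
            refine ⟨hz4, ?_⟩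
            rcases hz2 with rfl | ⟨-, h5, -⟩
            · exact absurd hz3 (lt_irrefl _)
            · exact h5
          | some i =>
            refine mem_iUnion.2 ⟨i, mem_iUnion.2 ⟨?_, hzo⟩⟩
            rw [Finset.mem_eraseNone]; exact hot
        · exact ⟨∅, fun h => absurd h hq⟩
      choose t ht using hcomp
      classical
      refine ⟨insert i₀ (Q.biUnion t), fun z hz => ?_⟩
      by_cases hzj : z ∈ x.nb j
      · exact mem_iUnion.2 ⟨i₀, mem_iUnion.2 ⟨Finset.mem_insert_self _ _, hj hzj⟩⟩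
      · have hz' := hz
        rcases hz with rfl | ⟨h1, h2, -⟩
        · exact absurd (z.self_mem j) hzj
        · have h3 : z.e x.lv < j := by
            by_contra h
            push Not at h
            exact hzj (Or.inr ⟨h1, h2, h⟩)
          obtain ⟨q, hqQ, hq2⟩ := hQ z h1 h3
          have h4 := ht q (hQ1 q hqQ) ⟨⟨hq2, hz'⟩, h1, h3⟩
          obtain ⟨i, hi⟩ := mem_iUnion.1 h4
          obtain ⟨hit, hzi⟩ := mem_iUnion.1 hi
          refine mem_iUnion.2 ⟨i, mem_iUnion.2 ⟨?_, hzi⟩⟩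
          rw [Finset.mem_insert, Finset.mem_biUnion]
          exact Or.inr ⟨q, hqQ, hit⟩
  exact main x.lv x rfl

end Pool.Agent.Lib.MP_302921_gt
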