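import Mathlib
import Pool.Agent.Lib.MP_302921_gt.Defs
import Pool.Agent.Lib.MP_302921_gt.Space
import Pool.Agent.Lib.MP_302921_gt.Guess

section

open Set Filter Topology

namespace Pool.Agent.Lib.MP_302921_gt

universe u

/-- a pointwise continuous operator on all functions, preserving the values on `A`, and sending
functions continuous on `A` to functions continuous on `B` -/
def Ext {Z : Type u} [TopologicalSpace Z] (A B : Set Z) : Prop :=
  ∃ φ : (Z → ℝ) → (Z → ℝ), Continuous φ ∧ (∀ f, ∀ x ∈ A, φ f x = f x) ∧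
    ∀ f, ContinuousOn f A → ContinuousOn (φ f) B

section basic

variable {Z : Type u} [TopologicalSpace Z]

theorem Ext.refl (A : Set Z) : Ext A A :=
  ⟨id, continuous_id, fun _ _ _ => rfl, fun _ h => h⟩

theorem Ext.trans {A B C : Set Z} (hAB : A ⊆ B) (h1 : Ext A B) (h2 : Ext B C) : Ext A C := by
  obtain ⟨φ, hφ1, hφ2, hφ3⟩ := h1
  obtain ⟨ψ, hψ1, hψ2, hψ3⟩ := h2
  refine ⟨ψ ∘ φ, hψ1.comp hφ1, ?_, ?_⟩
  · intro f x hx
    simp only [Function.comp]
    rw [hψ2 _ x (hAB hx), hφ2 f x hx]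
  · intro f hf
    exact hψ3 _ (hφ3 f hf)

/-- glueing -/
theorem Ext.glue {A B : Set Z} (hA : IsClosed A) (hB : IsClosed B) (h : Ext (A ∩ B) B) :
    Ext A (A ∪ B) := by
  classical
  obtain ⟨φ, hφ1, hφ2, hφ3⟩ := h
  refine ⟨fun f x => if x ∈ B then φ f x else f x, ?_, ?_, ?_⟩
  · refine continuous_pi fun x => ?_
    by_cases hx : x ∈ B
    · simp only [if_pos hx]
      exact (continuous_apply x).comp hφ1
    · simp only [if_neg hx]
      exact continuous_apply x
  · intro f x hx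
    by_cases hxB : x ∈ B
    · simp only [if_pos hxB]
      exact hφ2 f x ⟨hx, hxB⟩
    · simp only [if_neg hxB]
  · intro f hf
    have h1 : ContinuousOn (fun x => if x ∈ B then φ f x else f x) B :=
      (hφ3 f (hf.mono inter_subset_left)).congr fun x hx => by simp only [if_pos hx]
    have h2 : ContinuousOn (fun x => if x ∈ B then φ f x else f x) A := by
      refine hf.congr fun x hx => ?_
      by_cases hxB : x ∈ B
      · simp only [if_pos hxB]
        exact hφ2 f x ⟨hx, hxB⟩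
      · simp only [if_neg hxB]
    exact h2.union_of_isClosed h1 hA hB

theorem TEmbedded.of_ext {F : Set Z} (h : Ext F univ) : TEmbedded F := by
  classical
  obtain ⟨φ, hφ1, hφ2, hφ3⟩ := h
  -- extension by zero
  let z : Cp F → (Z → ℝ) := fun f x => if hx : x ∈ F then f.1 ⟨x, hx⟩ else 0
  have hz : Continuous z := by
    refine continuous_pi fun x => ?_
    by_cases hx : x ∈ F
    · simp only [z, dif_pos hx]
      exact (continuous_apply (⟨x, hx⟩ : F)).comp continuous_subtype_val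
    · simp only [z, dif_neg hx]
      exact continuous_const
  have hzc : ∀ f : Cp F, ContinuousOn (z f) F := by
    intro f
    rw [continuousOn_iff_continuous_domRestrict]
    refine f.2.congr fun x => ?_
    simp only [z, domRestrict_apply, dif_pos x.2]
  refine ⟨fun f => ⟨φ (z f), continuousOn_univ.1 (hφ3 _ (hzc f))⟩, ?_, ?_⟩
  · exact Continuous.subtype_mk (hφ1.comp hz) _
  · intro f x
    simp only
    rw [hφ2 _ _ x.2]
    simp only [z, dif_pos x.2]

end basic

section prod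

variable {X : Type u} [TopologicalSpace X]

theorem Ext.swap {A B : Set (X × X)} (h : Ext A B) :
    Ext (Prod.swap ⁻¹' A) (Prod.swap ⁻¹' B) := by
  obtain ⟨φ, hφ1, hφ2, hφ3⟩ := h
  refine ⟨fun f z => φ (fun w => f w.swap) z.swap, ?_, ?_, ?_⟩
  · refine continuous_pi fun z => ?_
    have h1 : Continuous fun f : X × X → ℝ => (fun w : X × X => f w.swap) :=
      continuous_pi fun w => continuous_apply _
    exact (continuous_apply z.swap).comp (hφ1.comp h1)
  · intro f z hz
    simp only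
    rw [hφ2 _ _ hz, Prod.swap_swap]
  · intro f hf
    have h1 : ContinuousOn (fun w : X × X => f w.swap) A := by
      refine hf.comp continuous_swap.continuousOn ?_
      intro w hw
      simpa using hw
    exact (hφ3 _ h1).comp continuous_swap.continuousOn fun z hz => hz

/-- extension to a strip -/
theorem ext_strip {G₁ G₂ T : Set X} {o : X} (ho : o ∈ T) (h12 : G₁ ⊆ G₂) {p q : X → X}
    (hp : Continuous p) (hpG : ∀ x, p x ∈ G₁) (hpf : ∀ x ∈ G₁, p x = x)
    (hq : Continuous q) (hqG : ∀ x, q x ∈ G₂) (hqf : ∀ x ∈ G₂, q x = x) :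
    Ext (G₁ ×ˢ T ∪ G₂ ×ˢ {o}) (univ ×ˢ T) := by
  refine ⟨fun f z => f (p z.1, z.2) - f (p z.1, o) + f (q z.1, o), ?_, ?_, ?_⟩
  · refine continuous_pi fun z => ?_
    fun_prop
  · rintro f ⟨x, t⟩ hz
    simp only
    rcases hz with ⟨hx, ht⟩ | ⟨hx, ht⟩
    · rw [hpf x hx, hqf x (h12 hx)]
      ring
    · simp only [mem_singleton_iff] at ht
      subst ht
      rw [hqf x hx]
      ring
  · intro f hf
    have h1 : ContinuousOn (fun z : X × X => f (p z.1, z.2)) (univ ×ˢ T) := by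
      refine hf.comp ((hp.comp continuous_fst).prodMk continuous_snd).continuousOn ?_
      rintro ⟨x, t⟩ ⟨-, ht⟩
      exact Or.inl ⟨hpG x, ht⟩
    have h2 : ContinuousOn (fun z : X × X => f (p z.1, o)) (univ ×ˢ T) := by
      refine hf.comp ((hp.comp continuous_fst).prodMk continuous_const).continuousOn ?_
      rintro ⟨x, t⟩ ⟨-, ht⟩
      exact Or.inl ⟨hpG x, ho⟩
    have h3 : ContinuousOn (fun z : X × X => f (q z.1, o)) (univ ×ˢ T) := by
      refine hf.comp ((hq.comp continuous_fst).prodMk continuous_const).continuousOn ?_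
      rintro ⟨x, t⟩ ⟨-, ht⟩
      exact Or.inr ⟨hqG x, rfl⟩
    exact (h1.sub h2).add h3

/-- the function `ψ(a,b)` with `ψ(a,a) = a`, `ψ(a,0) = ψ(0,a) = 0` -/
noncomputable def psi (a b : ℝ) : ℝ := max (min a b) 0 + min (max a b) 0

theorem psi_self (a : ℝ) : psi a a = a := by
  unfold psi
  rw [min_self, max_self, max_add_min, add_zero]

theorem psi_zero_right (a : ℝ) : psi a 0 = 0 := by
  unfold psi
  rcases le_total a 0 with h | h
  · rw [min_eq_left h, max_eq_right h, min_self, add_zero]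
  · rw [min_eq_right h, max_eq_left h, max_self, min_eq_right h, add_zero]

theorem psi_zero_left (a : ℝ) : psi 0 a = 0 := by
  have : psi 0 a = psi a 0 := by
    unfold psi; rw [min_comm, max_comm a 0]
  rw [this, psi_zero_right]

theorem continuous_psi : Continuous fun z : ℝ × ℝ => psi z.1 z.2 := by
  unfold psi
  fun_prop

/-- the three curves: diagonal and cross -/
def curves (T : Set X) (o : X) : Set (X × X) :=
  {z | z.1 ∈ T ∧ z.2 ∈ T ∧ (z.1 = z.2 ∨ z.1 = o ∨ z.2 = o)}

theorem ext_curves {T : Set X} {o : X} (ho : o ∈ T) : Ext (curves T o) (T ×ˢ T) := by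
  let u : (X × X → ℝ) → X → ℝ := fun f x => f (x, x) - f (x, o) - f (o, x) + f (o, o)
  have hu : ∀ x, Continuous fun f => u f x := fun x => by
    simp only [u]
    fun_prop
  refine ⟨fun f z => f (z.1, o) + f (o, z.2) - f (o, o) + psi (u f z.1) (u f z.2), ?_, ?_, ?_⟩
  · refine continuous_pi fun z => ?_
    have h1 : Continuous fun f : X × X → ℝ => psi (u f z.1) (u f z.2) :=
      continuous_psi.comp ((hu z.1).prodMk (hu z.2))
    have h2 : Continuous fun f : X × X → ℝ => f (z.1, o) + f (o, z.2) - f (o, o) := by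
      fun_prop
    exact h2.add h1
  · rintro f ⟨x, y⟩ ⟨hx, hy, hxy⟩
    simp only at hxy ⊢
    have huo : u f o = 0 := by simp only [u]; ring
    rcases hxy with rfl | rfl | rfl
    · rw [psi_self]
      simp only [u]
      ring
    · rw [huo, psi_zero_left]
      ring
    · rw [huo, psi_zero_right]
      ring
  · intro f hf
    have hd : ContinuousOn (fun x => f (x, x)) T :=
      hf.comp (continuous_id.prodMk continuous_id).continuousOn
        fun x hx => ⟨hx, hx, Or.inl rfl⟩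
    have hr : ContinuousOn (fun x => f (x, o)) T :=
      hf.comp (continuous_id.prodMk continuous_const).continuousOn
        fun x hx => ⟨hx, ho, Or.inr (Or.inr rfl)⟩
    have hl : ContinuousOn (fun x => f (o, x)) T :=
      hf.comp (continuous_const.prodMk continuous_id).continuousOn
        fun x hx => ⟨ho, hx, Or.inr (Or.inl rfl)⟩
    have huc : ContinuousOn (u f) T := ((hd.sub hr).sub hl).add continuousOn_const
    have h1 : ContinuousOn (fun z : X × X => f (z.1, o)) (T ×ˢ T) :=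
      hr.comp continuous_fst.continuousOn fun z hz => hz.1
    have h2 : ContinuousOn (fun z : X × X => f (o, z.2)) (T ×ˢ T) :=
      hl.comp continuous_snd.continuousOn fun z hz => hz.2
    have h3 : ContinuousOn (fun z : X × X => psi (u f z.1) (u f z.2)) (T ×ˢ T) :=
      continuous_psi.comp_continuousOn
        ((huc.comp continuous_fst.continuousOn fun z hz => hz.1).prodMk
          (huc.comp continuous_snd.continuousOn fun z hz => hz.2))
    exact ((h1.add h2).sub continuousOn_const).add h3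

end prod

end Pool.Agent.Lib.MP_302921_gt
end

section

section

open Set Filter Topology

namespace Pool.Agent.Lib.MP_302921_gt

universe u

/-- the structure of the space used to build extenders -/
structure IsFrame {X : Type u} [TopologicalSpace X] (T : Set X) (o : X) (r : X → X)
    (L : ℕ → Set X) : Prop where
  closedT : IsClosed T
  ho : o ∈ T
  hr : Continuous r
  hrT : ∀ x, r x ∈ T
  hrf : ∀ x ∈ T, r x = x
  hL : ∀ m, IsClopen (L m)
  hLd : ∀ m n x, x ∈ L m → x ∈ L n → m = n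
  hLT : ∀ x, x ∈ T ∨ ∃ m, x ∈ L m
  hTL : ∀ m x, x ∈ L m → x ∉ T
  hrL : ∀ m x y, x ∈ L m → y ∈ L m → r x = r y
  ret1 : ∀ m (A : Set X), IsClosed A → (A ∩ L m).Nonempty →
    ∃ s : X → X, ContinuousOn s (L m) ∧ MapsTo s (L m) (A ∩ L m) ∧ ∀ x ∈ A ∩ L m, s x = x
  ret2 : ∀ m n (A : Set (X × X)), IsClosed A → (A ∩ L m ×ˢ L n).Nonempty →
    ∃ s : X × X → X × X, ContinuousOn s (L m ×ˢ L n) ∧
      MapsTo s (L m ×ˢ L n) (A ∩ L m ×ˢ L n) ∧ ∀ x ∈ A ∩ L m ×ˢ L n, s x = x

variable {X : Type u} [TopologicalSpace X] [CompactSpace X] [T2Space X] {T : Set X} {o : X}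
  {r : X → X} {L : ℕ → Set X}

theorem IsFrame.retract (hF : IsFrame T o r L) {G : Set X} (hG : IsClosed G) (hTG : T ⊆ G) :
    ∃ p : X → X, Continuous p ∧ (∀ x, p x ∈ G) ∧ ∀ x ∈ G, p x = x := by
  classical
  have hex : ∀ m, ∃ s : X → X, ContinuousOn s (L m) ∧ (∀ x ∈ L m, s x ∈ G) ∧
      (∀ x ∈ G ∩ L m, s x = x) ∧ (∀ x ∈ L m, r (s x) = r x) ∧
      (∀ x ∈ L m, ∀ n, s x ∈ L n → x ∈ L n) := by
    intro m
    by_cases hne : (G ∩ L m).Nonempty
    · obtain ⟨s, hs1, hs2, hs3⟩ := hF.ret1 m G hG hne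
      refine ⟨s, hs1, fun x hx => (hs2 hx).1, hs3, fun x hx => hF.hrL m _ _ (hs2 hx).2 hx, ?_⟩
      intro x hx n hn
      have := hF.hLd m n _ (hs2 hx).2 hn
      exact this ▸ hx
    · refine ⟨r, hF.hr.continuousOn, fun x _ => hTG (hF.hrT x), ?_, ?_, ?_⟩
      · intro x hx
        exact absurd ⟨x, hx⟩ hne
      · intro x _
        exact hF.hrf _ (hF.hrT x)
      · intro x _ n hn
        exact absurd (hF.hrT x) (hF.hTL n _ hn)
  choose s hs1 hs2 hs3 hs4 hs5 using hex
  have hm : ∀ x, ∃ m, x ∉ T → x ∈ L m := by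
    intro x
    rcases hF.hLT x with h | ⟨m, h⟩
    · exact ⟨0, fun h' => absurd h h'⟩
    · exact ⟨m, fun _ => h⟩
  choose m hm using hm
  have hmL : ∀ n x, x ∈ L n → m x = n := fun n x hx => hF.hLd _ _ x (hm x (hF.hTL n x hx)) hx
  let p : X → X := fun x => if x ∈ T then x else s (m x) x
  have hpT : ∀ x ∈ T, p x = x := fun x hx => by simp only [p, if_pos hx]
  have hpL : ∀ n, ∀ x ∈ L n, p x = s n x := by
    intro n x hx
    simp only [p, if_neg (hF.hTL n x hx), hmL n x hx]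
  have hrp : ∀ x, r (p x) = r x := by
    intro x
    rcases hF.hLT x with h | ⟨n, h⟩
    · rw [hpT x h]
    · rw [hpL n x h, hs4 n x h]
  have hpn : ∀ n x, p x ∈ L n → x ∈ L n := by
    intro n x hx
    rcases hF.hLT x with h | ⟨k, h⟩
    · rwa [hpT x h] at hx
    · rw [hpL k x h] at hx
      exact hs5 k x h n hx
  refine ⟨p, ?_, ?_, ?_⟩
  · rw [continuous_iff_continuousAt]
    intro x
    rcases hF.hLT x with h | ⟨n, h⟩
    · rw [continuousAt_iff_ultrafilter]
      intro g hg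
      rw [hpT x h]
      have hlim : ((g.map p : Ultrafilter X) : Filter X) ≤ 𝓝 (g.map p).lim :=
        (g.map p).le_nhds_lim
      set y := (g.map p).lim with hy
      have hty : Tendsto p g (𝓝 y) := hlim
      have hyT : y ∈ T := by
        rcases hF.hLT y with h' | ⟨n, h'⟩
        · exact h'
        · exfalso
          have h1 : p ⁻¹' (L n) ∈ (g : Filter X) :=
            hty ((hF.hL n).isOpen.mem_nhds h')
          have h2 : L n ∈ (g : Filter X) := by
            filter_upwards [h1] with z hz using hpn n z hz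
          have h3 : (L n)ᶜ ∈ 𝓝 x :=
            (hF.hL n).isClosed.isOpen_compl.mem_nhds (fun hx => hF.hTL n x hx h)
          have h4 := hg h3
          have h5 := inter_mem h2 h4
          rw [inter_compl_self] at h5
          exact g.neBot.ne (empty_mem_iff_bot.1 h5)
      have h6 : Tendsto (fun z => r (p z)) g (𝓝 (r y)) := (hF.hr.tendsto y).comp hty
      have h7 : Tendsto r g (𝓝 (r x)) := (hF.hr.tendsto x).mono_left hg
      simp only [hrp] at h6
      have h8 := tendsto_nhds_unique h6 h7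
      rw [hF.hrf y hyT, hF.hrf x h] at h8
      rw [← h8]
      exact hty
    · have h1 : p =ᶠ[𝓝 x] s n := by
        filter_upwards [(hF.hL n).isOpen.mem_nhds h] with z hz using hpL n z hz
      exact ((hs1 n).continuousAt ((hF.hL n).isOpen.mem_nhds h)).congr h1.symm
  · intro x
    rcases hF.hLT x with h | ⟨n, h⟩
    · rw [hpT x h]; exact hTG h
    · rw [hpL n x h]; exact hs2 n x h
  · intro x hx
    rcases hF.hLT x with h | ⟨n, h⟩
    · exact hpT x h
    · rw [hpL n x h]; exact hs3 n x ⟨hx, h⟩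

omit [T2Space X] in
/-- final step: from a closed set containing the two strips to the whole square -/
theorem IsFrame.ext_univ (hF : IsFrame T o r L) {A : Set (X × X)} (hA : IsClosed A)
    (h1 : univ ×ˢ T ⊆ A) (h2 : T ×ˢ univ ⊆ A) : Ext A univ := by
  classical
  have hex : ∀ k : ℕ × ℕ, ∃ s : X × X → X × X, (A ∩ L k.1 ×ˢ L k.2).Nonempty →
      ContinuousOn s (L k.1 ×ˢ L k.2) ∧
      MapsTo s (L k.1 ×ˢ L k.2) (A ∩ L k.1 ×ˢ L k.2) ∧ ∀ x ∈ A ∩ L k.1 ×ˢ L k.2, s x = x := by
    intro k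
    by_cases hne : (A ∩ L k.1 ×ˢ L k.2).Nonempty
    · obtain ⟨s, hs⟩ := hF.ret2 k.1 k.2 A hA hne
      exact ⟨s, fun _ => hs⟩
    · exact ⟨id, fun h => absurd h hne⟩
  choose s hs using hex
  have hm : ∀ x, ∃ m, x ∉ T → x ∈ L m := by
    intro x
    rcases hF.hLT x with h | ⟨m, h⟩
    · exact ⟨0, fun h' => absurd h h'⟩
    · exact ⟨m, fun _ => h⟩
  choose m hm using hm
  have hmL : ∀ n x, x ∈ L n → m x = n := fun n x hx => hF.hLd _ _ x (hm x (hF.hTL n x hx)) hx
  let κ : X × X → ℕ × ℕ := fun z => (m z.1, m z.2)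
  have hκ : ∀ k : ℕ × ℕ, ∀ z ∈ L k.1 ×ˢ L k.2, κ z = k := by
    rintro ⟨a, b⟩ z ⟨hz1, hz2⟩
    simp only [κ, hmL a z.1 hz1, hmL b z.2 hz2]
  let e : (X × X → ℝ) → X × X → ℝ := fun f z =>
    f (r z.1, z.2) + f (z.1, r z.2) - f (r z.1, r z.2)
  let g : (X × X → ℝ) → X × X → ℝ := fun f z =>
    if z.1 ∈ T ∨ z.2 ∈ T then 0 else
      if (A ∩ L (κ z).1 ×ˢ L (κ z).2).Nonempty then f (s (κ z) z) - e f (s (κ z) z) else 0
  have he : ∀ z, Continuous fun f => e f z := fun z => by
    simp only [e]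
    fun_prop
  have hgc : ∀ z, Continuous fun f => g f z := fun z => by
    by_cases h : z.1 ∈ T ∨ z.2 ∈ T
    · simp only [g, if_pos h]
      exact continuous_const
    · by_cases h' : (A ∩ L (κ z).1 ×ˢ L (κ z).2).Nonempty
      · simp only [g, if_neg h, if_pos h']
        exact (continuous_apply _).sub (he _)
      · simp only [g, if_neg h, if_neg h']
        exact continuous_const
  -- `e f = f` on the strips
  have hef : ∀ f z, (z.1 ∈ T ∨ z.2 ∈ T) → e f z = f z := by
    rintro f ⟨x, y⟩ (h | h)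
    · simp only [e]
      rw [hF.hrf x h]; ring
    · simp only [e]
      rw [hF.hrf y h]; ring
  have hzL : ∀ z : X × X, ¬ (z.1 ∈ T ∨ z.2 ∈ T) → z ∈ L (κ z).1 ×ˢ L (κ z).2 := by
    intro z hz
    push Not at hz
    exact ⟨hm _ hz.1, hm _ hz.2⟩
  refine ⟨fun f z => e f z + g f z, ?_, ?_, ?_⟩
  · exact continuous_pi fun z => (he z).add (hgc z)
  · intro f z hz
    by_cases h : z.1 ∈ T ∨ z.2 ∈ T
    · simp only [g, if_pos h, hef f z h, add_zero]
    · have h3 : z ∈ A ∩ L (κ z).1 ×ˢ L (κ z).2 := ⟨hz, hzL z h⟩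
      have h' : (A ∩ L (κ z).1 ×ˢ L (κ z).2).Nonempty := ⟨z, h3⟩
      simp only [g, if_neg h, if_pos h', (hs _ h').2.2 z h3]
      ring
  · intro f hf
    have hec : Continuous (e f) := by
      have c1 : Continuous fun z : X × X => f (r z.1, z.2) := by
        rw [← continuousOn_univ]
        refine hf.comp ((hF.hr.comp continuous_fst).prodMk continuous_snd).continuousOn ?_
        intro z _
        exact h2 ⟨hF.hrT _, mem_univ _⟩
      have c2 : Continuous fun z : X × X => f (z.1, r z.2) := by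
        rw [← continuousOn_univ]
        refine hf.comp (continuous_fst.prodMk (hF.hr.comp continuous_snd)).continuousOn ?_
        intro z _
        exact h1 ⟨mem_univ _, hF.hrT _⟩
      have c3 : Continuous fun z : X × X => f (r z.1, r z.2) := by
        rw [← continuousOn_univ]
        refine hf.comp ((hF.hr.comp continuous_fst).prodMk
          (hF.hr.comp continuous_snd)).continuousOn ?_
        intro z _
        exact h1 ⟨mem_univ _, hF.hrT _⟩
      exact (c1.add c2).sub c3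
    have hdc : ContinuousOn (fun z => f z - e f z) A := hf.sub hec.continuousOn
    have hgcont : Continuous (g f) := by
      rw [continuous_iff_continuousAt]
      intro z
      by_cases h : z.1 ∈ T ∨ z.2 ∈ T
      · -- on the strips
        have hgz : g f z = 0 := by simp only [g, if_pos h]
        rw [ContinuousAt, hgz, Metric.tendsto_nhds]
        intro ε hε
        set K : Set (X × X) := {w ∈ A | ε ≤ |f w - e f w|} with hK
        have hKc : IsCompact K := by
          have : IsClosed K := by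
            have h3 : ContinuousOn (fun w => |f w - e f w|) A := hdc.abs
            have h4 := h3.preimage_isClosed_of_isClosed hA (isClosed_Ici (a := ε))
            exact h4
          exact this.isCompact
        have hKcov : K ⊆ ⋃ k : ℕ × ℕ, L k.1 ×ˢ L k.2 := by
          rintro w ⟨hwA, hw⟩
          have hw' : ¬ (w.1 ∈ T ∨ w.2 ∈ T) := by
            intro h'
            rw [hef f w h', sub_self, abs_zero] at hw
            exact absurd hw (not_le.2 hε)
          exact mem_iUnion.2 ⟨κ w, hzL w hw'⟩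
        obtain ⟨J, hJ⟩ := hKc.elim_finite_subcover (fun k : ℕ × ℕ => L k.1 ×ˢ L k.2)
          (fun k => (hF.hL k.1).isOpen.prod (hF.hL k.2).isOpen) hKcov
        have hV : (⋃ k ∈ J, L k.1 ×ˢ L k.2)ᶜ ∈ 𝓝 z := by
          refine IsOpen.mem_nhds ?_ ?_
          · rw [isOpen_compl_iff]
            exact J.finite_toSet.isClosed_biUnion
              fun k _ => (hF.hL k.1).isClosed.prod (hF.hL k.2).isClosed
          · intro hz
            simp only [mem_iUnion] at hz
            obtain ⟨k, -, hz1, hz2⟩ := hz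
            rcases h with h | h
            · exact hF.hTL _ _ hz1 h
            · exact hF.hTL _ _ hz2 h
        filter_upwards [hV] with w hw
        rw [Real.dist_eq, sub_zero]
        by_cases hw' : w.1 ∈ T ∨ w.2 ∈ T
        · simp only [g, if_pos hw', abs_zero]; exact hε
        · by_cases hne : (A ∩ L (κ w).1 ×ˢ L (κ w).2).Nonempty
          · simp only [g, if_neg hw', if_pos hne]
            by_contra hcon
            push Not at hcon
            have h5 := (hs _ hne).2.1 (hzL w hw')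
            have h6 : s (κ w) w ∈ K := ⟨h5.1, hcon⟩
            have h7 := hJ h6
            simp only [mem_iUnion] at h7
            obtain ⟨k, hkJ, hk⟩ := h7
            have h8 : κ (s (κ w) w) = k := hκ k _ hk
            have h9 : κ (s (κ w) w) = κ w := hκ (κ w) _ h5.2
            apply hw
            simp only [mem_iUnion]
            refine ⟨κ w, ?_, hzL w hw'⟩
            rw [← h9, h8]; exact hkJ
          · simp only [g, if_neg hw', if_neg hne, abs_zero]; exact hε
      · have hzk := hzL z h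
        have hopen : L (κ z).1 ×ˢ L (κ z).2 ∈ 𝓝 z :=
          ((hF.hL _).isOpen.prod (hF.hL _).isOpen).mem_nhds hzk
        have hnT : ∀ w ∈ L (κ z).1 ×ˢ L (κ z).2, ¬ (w.1 ∈ T ∨ w.2 ∈ T) := by
          rintro w ⟨hw1, hw2⟩ (h' | h')
          · exact hF.hTL _ _ hw1 h'
          · exact hF.hTL _ _ hw2 h'
        by_cases hne : (A ∩ L (κ z).1 ×ˢ L (κ z).2).Nonempty
        · have h5 : g f =ᶠ[𝓝 z] fun w => f (s (κ z) w) - e f (s (κ z) w) := by
            filter_upwards [hopen] with w hw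
            simp only [g, if_neg (hnT w hw), hκ _ w hw, if_pos hne]
          refine ContinuousAt.congr ?_ h5.symm
          have h6 : ContinuousOn (fun w => f (s (κ z) w) - e f (s (κ z) w))
              (L (κ z).1 ×ˢ L (κ z).2) :=
            hdc.comp (hs _ hne).1 fun w hw => ((hs _ hne).2.1 hw).1
          exact h6.continuousAt hopen
        · have h5 : g f =ᶠ[𝓝 z] fun _ => 0 := by
            filter_upwards [hopen] with w hw
            simp only [g, if_neg (hnT w hw), hκ _ w hw, if_neg hne]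
          exact continuousAt_const.congr h5.symm
    exact (hec.add hgcont).continuousOn

omit [CompactSpace X] in
/-- from a special closed subset of `T × T` to `T × T` -/
theorem ext_square (hTc : IsClosed T) (ho : o ∈ T) {F : Set (X × X)}
    (hH : (∀ t ∈ T, (o, t) ∈ F) ∨ ∀ t ∈ T, (o, t) ∈ F → t = o)
    (hV : (∀ t ∈ T, (t, o) ∈ F) ∨ ∀ t ∈ T, (t, o) ∈ F → t = o)
    (hD : (∀ t ∈ T, (t, t) ∈ F) ∨ ∀ t ∈ T, (t, t) ∈ F → t = o)
    (hsq : (T ×ˢ T ⊆ F) ∨ ∀ x ∈ T, ∀ y ∈ T, (x, y) ∈ F → x = y ∨ x = o ∨ y = o) :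
    Ext (F ∩ T ×ˢ T) (T ×ˢ T) := by
  classical
  rcases hsq with hsq | hsq
  · rw [inter_eq_self_of_subset_right hsq]
    exact Ext.refl _
  have hsub : F ∩ T ×ˢ T ⊆ curves T o := by
    rintro ⟨x, y⟩ ⟨hxy, hx, hy⟩
    exact ⟨hx, hy, hsq x hx y hy hxy⟩
  refine Ext.trans hsub ?_ (ext_curves ho)
  refine ⟨fun f z => if z ∈ F ∩ T ×ˢ T then f z else if (o, o) ∈ F then f (o, o) else 0,
    ?_, ?_, ?_⟩
  · refine continuous_pi fun z => ?_
    by_cases h1 : z ∈ F ∩ T ×ˢ T
    · simp only [if_pos h1]; exact continuous_apply z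
    · simp only [if_neg h1]
      by_cases h2 : (o, o) ∈ F
      · simp only [if_pos h2]; exact continuous_apply _
      · simp only [if_neg h2]; exact continuous_const
  · intro f z hz
    simp only [if_pos hz]
  · intro f hf
    set g : X × X → ℝ := fun z =>
      if z ∈ F ∩ T ×ˢ T then f z else if (o, o) ∈ F then f (o, o) else 0 with hg
    have key : ∀ P : Set (X × X), P ⊆ T ×ˢ T →
        (P ⊆ F ∨ ∀ z ∈ P, z ∈ F → z = (o, o)) → ContinuousOn g P := by
      intro P hPT hP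
      rcases hP with hP | hP
      · refine (hf.mono (subset_inter hP hPT)).congr fun z hz => ?_
        have : z ∈ F ∩ T ×ˢ T := ⟨hP hz, hPT hz⟩
        simp only [hg, if_pos this]
      · have : ∀ z ∈ P, g z = if (o, o) ∈ F then f (o, o) else 0 := by
          intro z hz
          by_cases h1 : z ∈ F ∩ T ×ˢ T
          · have h2 := hP z hz h1.1
            subst h2
            simp only [hg, if_pos h1, if_pos h1.1]
          · simp only [hg, if_neg h1]
        exact continuousOn_const.congr this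
    have hcur : curves T o = ({z : X × X | z.1 ∈ T ∧ z.2 = z.1} ∪ {z | z.1 = o ∧ z.2 ∈ T}) ∪
        {z | z.1 ∈ T ∧ z.2 = o} := by
      ext ⟨x, y⟩
      constructor
      · rintro ⟨hx, hy, h | h | h⟩
        · exact Or.inl (Or.inl ⟨hx, h.symm⟩)
        · exact Or.inl (Or.inr ⟨h, hy⟩)
        · exact Or.inr ⟨hx, h⟩
      · rintro ((⟨h1, h2⟩ | ⟨h1, h2⟩) | ⟨h1, h2⟩)
        · simp only at h1 h2; subst h2; exact ⟨h1, h1, Or.inl rfl⟩
        · simp only at h1 h2; subst h1; exact ⟨ho, h2, Or.inr (Or.inl rfl)⟩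
        · simp only at h1 h2; subst h2; exact ⟨h1, ho, Or.inr (Or.inr rfl)⟩
    have c1 : IsClosed {z : X × X | z.1 ∈ T ∧ z.2 = z.1} :=
      (hTc.preimage continuous_fst).inter (isClosed_eq continuous_snd continuous_fst)
    have c2 : IsClosed {z : X × X | z.1 = o ∧ z.2 ∈ T} :=
      (isClosed_eq continuous_fst continuous_const).inter (hTc.preimage continuous_snd)
    have c3 : IsClosed {z : X × X | z.1 ∈ T ∧ z.2 = o} :=
      (hTc.preimage continuous_fst).inter (isClosed_eq continuous_snd continuous_const)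
    rw [hcur]
    refine ContinuousOn.union_of_isClosed (ContinuousOn.union_of_isClosed ?_ ?_ c1 c2) ?_
      (c1.union c2) c3
    · apply key
      · rintro ⟨x, y⟩ ⟨h1, h2⟩; simp only at h1 h2; subst h2; exact ⟨h1, h1⟩
      · rcases hD with hD | hD
        · left; rintro ⟨x, y⟩ ⟨h1, h2⟩; simp only at h1 h2; subst h2; exact hD _ h1
        · right; rintro ⟨x, y⟩ ⟨h1, h2⟩ h3; simp only at h1 h2; subst h2
          rw [hD _ h1 h3]
    · apply key
      · rintro ⟨x, y⟩ ⟨h1, h2⟩; simp only at h1 h2; subst h1; exact ⟨ho, h2⟩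
      · rcases hH with hD | hD
        · left; rintro ⟨x, y⟩ ⟨h1, h2⟩; simp only at h1 h2; subst h1; exact hD _ h2
        · right; rintro ⟨x, y⟩ ⟨h1, h2⟩ h3; simp only at h1 h2; subst h1
          rw [hD _ h2 h3]
    · apply key
      · rintro ⟨x, y⟩ ⟨h1, h2⟩; simp only at h1 h2; subst h2; exact ⟨h1, ho⟩
      · rcases hV with hD | hD
        · left; rintro ⟨x, y⟩ ⟨h1, h2⟩; simp only at h1 h2; subst h2; exact hD _ h1
        · right; rintro ⟨x, y⟩ ⟨h1, h2⟩ h3; simp only at h1 h2; subst h2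
          rw [hD _ h1 h3]

/-- the main extension theorem -/
theorem IsFrame.ext (hF : IsFrame T o r L) {F : Set (X × X)} (hFc : IsClosed F)
    (hH : ∀ x, (x ∉ T ∨ x = o) → (∀ t ∈ T, (x, t) ∈ F) ∨ ∀ t ∈ T, (x, t) ∈ F → t = o)
    (hV : ∀ x, (x ∉ T ∨ x = o) → (∀ t ∈ T, (t, x) ∈ F) ∨ ∀ t ∈ T, (t, x) ∈ F → t = o)
    (hD : (∀ t ∈ T, (t, t) ∈ F) ∨ ∀ t ∈ T, (t, t) ∈ F → t = o)
    (hsq : (T ×ˢ T ⊆ F) ∨ ∀ x ∈ T, ∀ y ∈ T, (x, y) ∈ F → x = y ∨ x = o ∨ y = o) :
    Ext F univ := by
  have hTc := hF.closedT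
  have ho := hF.ho
  have hTT : IsClosed (T ×ˢ T) := hTc.prod hTc
  have hUT : IsClosed ((univ : Set X) ×ˢ T) := isClosed_univ.prod hTc
  have hTU : IsClosed (T ×ˢ (univ : Set X)) := hTc.prod isClosed_univ
  -- step 1
  have e1 : Ext F (F ∪ T ×ˢ T) :=
    Ext.glue hFc hTT (ext_square hTc ho (hH o (Or.inr rfl)) (hV o (Or.inr rfl)) hD hsq)
  set F1 := F ∪ T ×ˢ T with hF1
  have hF1c : IsClosed F1 := hFc.union hTT
  -- step 2
  have e2 : Ext F1 (F1 ∪ univ ×ˢ T) := by
    refine Ext.glue hF1c hUT ?_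
    set G₁ : Set X := T ∪ {x | ∀ t ∈ T, (x, t) ∈ F} with hG1
    set G₂ : Set X := T ∪ {x | (x, o) ∈ F} with hG2
    have hG1c : IsClosed G₁ := by
      refine hTc.union ?_
      have : {x | ∀ t ∈ T, (x, t) ∈ F} = ⋂ t ∈ T, (fun x => (x, t)) ⁻¹' F := by
        ext x; simp
      rw [this]
      exact isClosed_biInter fun t _ => hFc.preimage (continuous_id.prodMk continuous_const)
    have hG2c : IsClosed G₂ :=
      hTc.union (hFc.preimage (continuous_id.prodMk continuous_const))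
    have h12 : G₁ ⊆ G₂ := by
      rintro x (hx | hx)
      · exact Or.inl hx
      · exact Or.inr (hx o ho)
    obtain ⟨p, hp1, hp2, hp3⟩ := hF.retract hG1c subset_union_left
    obtain ⟨q, hq1, hq2, hq3⟩ := hF.retract hG2c subset_union_left
    have := ext_strip ho h12 hp1 hp2 hp3 hq1 hq2 hq3
    have heq : F1 ∩ univ ×ˢ T = G₁ ×ˢ T ∪ G₂ ×ˢ {o} := by
      ext ⟨x, t⟩
      constructor
      · rintro ⟨h1, -, ht⟩
        simp only at ht
        by_cases hx : x ∈ T
        · exact Or.inl ⟨Or.inl hx, ht⟩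
        · have h2 : (x, t) ∈ F := by
            rcases h1 with h1 | h1
            · exact h1
            · exact absurd h1.1 hx
          rcases hH x (Or.inl hx) with h3 | h3
          · exact Or.inl ⟨Or.inr h3, ht⟩
          · have := h3 t ht h2
            subst this
            exact Or.inr ⟨Or.inr h2, rfl⟩
      · rintro (⟨hx | hx, ht⟩ | ⟨hx | hx, ht⟩)
        · exact ⟨Or.inr ⟨hx, ht⟩, mem_univ _, ht⟩
        · exact ⟨Or.inl (hx t ht), mem_univ _, ht⟩
        · simp only [mem_singleton_iff] at ht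
          subst ht
          exact ⟨Or.inr ⟨hx, ho⟩, mem_univ _, ho⟩
        · simp only [mem_singleton_iff] at ht
          subst ht
          exact ⟨Or.inl hx, mem_univ _, ho⟩
    rw [heq]
    exact this
  set F2 := F1 ∪ univ ×ˢ T with hF2
  have hF2c : IsClosed F2 := hF1c.union hUT
  -- step 3
  have e3 : Ext F2 (F2 ∪ T ×ˢ univ) := by
    refine Ext.glue hF2c hTU ?_
    set G₁ : Set X := T ∪ {x | ∀ t ∈ T, (t, x) ∈ F} with hG1
    set G₂ : Set X := T ∪ {x | (o, x) ∈ F} with hG2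
    have hG1c : IsClosed G₁ := by
      refine hTc.union ?_
      have : {x | ∀ t ∈ T, (t, x) ∈ F} = ⋂ t ∈ T, (fun x => (t, x)) ⁻¹' F := by
        ext x; simp
      rw [this]
      exact isClosed_biInter fun t _ => hFc.preimage (continuous_const.prodMk continuous_id)
    have hG2c : IsClosed G₂ :=
      hTc.union (hFc.preimage (continuous_const.prodMk continuous_id))
    have h12 : G₁ ⊆ G₂ := by
      rintro x (hx | hx)
      · exact Or.inl hx
      · exact Or.inr (hx o ho)
    obtain ⟨p, hp1, hp2, hp3⟩ := hF.retract hG1c subset_union_left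
    obtain ⟨q, hq1, hq2, hq3⟩ := hF.retract hG2c subset_union_left
    have h4 := (ext_strip ho h12 hp1 hp2 hp3 hq1 hq2 hq3).swap
    have heq : F2 ∩ T ×ˢ univ = Prod.swap ⁻¹' (G₁ ×ˢ T ∪ G₂ ×ˢ {o}) := by
      ext ⟨t, x⟩
      constructor
      · rintro ⟨h1, ht, -⟩
        simp only at ht
        by_cases hx : x ∈ T
        · exact Or.inl ⟨Or.inl hx, ht⟩
        · have h2 : (t, x) ∈ F := by
            rcases h1 with (h1 | h1) | h1
            · exact h1
            · exact absurd h1.2 hx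
            · exact absurd h1.2 hx
          rcases hV x (Or.inl hx) with h3 | h3
          · exact Or.inl ⟨Or.inr h3, ht⟩
          · have := h3 t ht h2
            subst this
            exact Or.inr ⟨Or.inr h2, rfl⟩
      · rintro (⟨hx | hx, ht⟩ | ⟨hx | hx, ht⟩)
        · exact ⟨Or.inl (Or.inr ⟨ht, hx⟩), ht, mem_univ _⟩
        · exact ⟨Or.inl (Or.inl (hx t ht)), ht, mem_univ _⟩
        · simp only [Prod.fst_swap, Prod.snd_swap, mem_singleton_iff] at ht hx
          subst ht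
          exact ⟨Or.inl (Or.inr ⟨ho, hx⟩), ho, mem_univ _⟩
        · simp only [Prod.fst_swap, Prod.snd_swap, mem_singleton_iff] at ht hx
          subst ht
          exact ⟨Or.inl (Or.inl hx), ho, mem_univ _⟩
    have heq2 : T ×ˢ univ = Prod.swap ⁻¹' ((univ : Set X) ×ˢ T) := by
      ext ⟨x, y⟩
      simp
    rw [heq, heq2]
    exact h4
  set F3 := F2 ∪ T ×ˢ univ with hF3
  have hF3c : IsClosed F3 := hF2c.union hTU
  have e4 : Ext F3 univ := hF.ext_univ hF3c
    (fun z hz => Or.inl (Or.inr hz)) (fun z hz => Or.inr hz)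
  exact Ext.trans subset_union_left e1
    (Ext.trans subset_union_left e2 (Ext.trans subset_union_left e3 e4))

end Pool.Agent.Lib.MP_302921_gt
end

section

open Set Filter Topology

namespace Pool.Agent.Lib.MP_302921_gt

universe u

variable {I : Type u} [LinearOrder I] [WellFoundedLT I]
  {𝓔 : I → Set (Set ((I × ℕ) × (I × ℕ)))} {f : I → Dat I}

theorem Sp.isClosed_nb (hf : ∀ γ, Req 𝓔 γ f (f γ)) (x : Sp f) (j : ℕ) : IsClosed (x.nb j) := by
  have := Sp.t2 hf
  have h1 : IsClosed (x.nb 0) := (Sp.isCompact_nb_zero hf x).isClosed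
  have h2 : x.nb j = x.nb 0 ∩ {z : Sp f | z.lv < x.lv ∧ z.e x.lv ∈ {n | n < j}}ᶜ := by
    ext z
    constructor
    · intro hz
      refine ⟨x.nb_anti (Nat.zero_le _) hz, fun h3 => ?_⟩
      rcases hz with rfl | ⟨h4, h5, h6⟩
      · exact lt_irrefl _ h3.1
      · exact absurd h3.2 (not_lt.2 h6)
    · rintro ⟨rfl | ⟨h4, h5, h6⟩, h7⟩
      · exact Sp.self_mem _ _
      · refine Or.inr ⟨h4, h5, ?_⟩
        by_contra hcon
        push Not at hcon
        exact h7 ⟨h4, hcon⟩
  rw [h2]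
  exact h1.inter (Sp.isOpen_fiber hf _ _).isClosed_compl

theorem Sp.isCompact_nb (hf : ∀ γ, Req 𝓔 γ f (f γ)) (x : Sp f) (j : ℕ) : IsCompact (x.nb j) :=
  (Sp.isCompact_nb_zero hf x).of_isClosed_subset (Sp.isClosed_nb hf x j)
    (x.nb_anti (Nat.zero_le _))

theorem Sp.wlc (hf : ∀ γ, Req 𝓔 γ f (f γ)) : WeaklyLocallyCompactSpace (Sp f) :=
  ⟨fun x => ⟨x.nb 0, Sp.isCompact_nb_zero hf x, Sp.nb_mem_nhds hf x 0⟩⟩

/-- the fibers of `e_γ` -/
def Sp.fib (f : I → Dat I) (γ : I) (m : ℕ) : Set (Sp f) := {z | z.lv < γ ∧ z.e γ = m}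

omit [WellFoundedLT I] in
theorem Sp.isOpen_fib (hf : ∀ γ, Req 𝓔 γ f (f γ)) (γ : I) (m : ℕ) : IsOpen (Sp.fib f γ m) :=
  Sp.isOpen_fiber hf γ {m}

theorem Sp.exists_compact_sublevel (hf : ∀ γ, Req 𝓔 γ f (f γ)) (γ : I) (N : ℕ) :
    ∃ K : Set (Sp f), IsCompact K ∧ K ⊆ {z | z.lv < γ} ∧ {z | z.lv < γ ∧ z.e γ < N} ⊆ K := by
  classical
  obtain ⟨Q, hQ1, hQ⟩ := Sp.cpt hf γ N
  refine ⟨⋃ q ∈ Q, q.nb 0, ?_, ?_, ?_⟩
  · exact (Finset.finite_toSet _).isCompact_biUnion fun q _ => Sp.isCompact_nb_zero hf q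
  · intro z hz
    simp only [mem_iUnion] at hz
    obtain ⟨q, hq, hz⟩ := hz
    exact (Sp.lv_le hz).trans_lt (hQ1 q hq)
  · rintro z ⟨h1, h2⟩
    obtain ⟨q, hq1, hq3⟩ := hQ z h1 h2
    simp only [mem_iUnion]
    exact ⟨q, hq1, hq3⟩

theorem Sp.isClosed_fib (hf : ∀ γ, Req 𝓔 γ f (f γ)) (γ : I) (m : ℕ) :
    IsClosed (Sp.fib f γ m) := by
  have := Sp.t2 hf
  obtain ⟨K, hK1, hK2, hK3⟩ := Sp.exists_compact_sublevel hf γ (m + 1)
  have h2 : Sp.fib f γ m = K ∩ {z : Sp f | z.lv < γ ∧ z.e γ ∈ {n | n ≠ m}}ᶜ := by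
    ext z
    constructor
    · rintro ⟨h1, h2⟩
      exact ⟨hK3 ⟨h1, by omega⟩, fun h3 => h3.2 h2⟩
    · rintro ⟨h1, h2⟩
      refine ⟨hK2 h1, ?_⟩
      by_contra hcon
      exact h2 ⟨hK2 h1, hcon⟩
  rw [h2]
  exact hK1.isClosed.inter (Sp.isOpen_fiber hf _ _).isClosed_compl

theorem Sp.isCompact_fib (hf : ∀ γ, Req 𝓔 γ f (f γ)) (γ : I) (m : ℕ) :
    IsCompact (Sp.fib f γ m) := by
  obtain ⟨K, hK1, hK2, hK3⟩ := Sp.exists_compact_sublevel hf γ (m + 1)
  exact hK1.of_isClosed_subset (Sp.isClosed_fib hf γ m) fun z hz =>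
    hK3 ⟨hz.1, by rw [hz.2]; exact Nat.lt_succ_self _⟩

omit [WellFoundedLT I] in
/-- the function `e_δ` is bounded on compact subsets of `{lv < δ}` -/
theorem Sp.bdd_on_compact (hf : ∀ γ, Req 𝓔 γ f (f γ)) {δ : I} {K : Set (Sp f)}
    (hK : IsCompact K) (hKδ : K ⊆ {z | z.lv < δ}) : ∃ M, ∀ z ∈ K, z.e δ < M := by
  obtain ⟨t, ht⟩ := hK.elim_finite_subcover (fun m => Sp.fib f δ m)
    (fun m => Sp.isOpen_fib hf δ m) (fun z hz => mem_iUnion.2 ⟨z.e δ, hKδ hz, rfl⟩)
  refine ⟨t.sup id + 1, fun z hz => ?_⟩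
  have := ht hz
  simp only [mem_iUnion] at this
  obtain ⟨m, hm, hz1, hz2⟩ := this
  rw [hz2]
  exact Nat.lt_succ_of_le (Finset.le_sup (f := id) hm)

theorem Sp.continuous_ret (hf : ∀ γ, Req 𝓔 γ f (f γ)) (γ : I) :
    Continuous (Sp.ret (f := f) γ) := by
  rw [continuous_iff_continuousAt]
  intro x
  rcases lt_trichotomy x.lv γ with h | h | h
  · -- locally constant
    obtain ⟨j, hj⟩ := Sp.const hf h
    have : Sp.ret (f := f) γ =ᶠ[𝓝 x] fun _ => Sp.ret γ x := by
      filter_upwards [Sp.nb_mem_nhds hf x j] with w hw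
      have hw' : w.lv < γ := (Sp.lv_le hw).trans_lt h
      rw [Sp.ret_lt hw', Sp.ret_lt h, hj w hw]
    exact continuousAt_const.congr this.symm
  · have : Sp.ret (f := f) γ =ᶠ[𝓝 x] fun _ => Sp.ret γ x := by
      filter_upwards [Sp.nb_mem_nhds hf x 0] with w hw
      rw [Sp.ret_ge h.ge]
      rcases hw with rfl | ⟨h1, h2, -⟩
      · exact Sp.ret_ge h.ge
      · have h3 : w.lv < γ := by rw [← h]; exact h1
        rw [Sp.ret_lt h3]
        rw [h] at h2
        rw [h2, ← h]
        rfl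
    exact continuousAt_const.congr this.symm
  · rw [ContinuousAt, Sp.ret_ge h.le, tendsto_def]
    intro V hV
    obtain ⟨j, hj⟩ := (Sp.mem_nhds_iff hf).1 hV
    obtain ⟨N, hN⟩ := Sp.coh_ret hf h
    obtain ⟨K, hK1, hK2, hK3⟩ := Sp.exists_compact_sublevel hf γ N
    obtain ⟨M, hM⟩ := Sp.bdd_on_compact hf hK1 (hK2.trans fun z hz => lt_trans hz h)
    rw [Sp.mem_nhds_iff hf]
    refine ⟨max j M, fun w hw => hj ?_⟩
    rcases lt_or_ge w.lv γ with h1 | h1
    · rcases hw with rfl | ⟨h2, h3, h4⟩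
      · exact absurd h1 (not_lt.2 h.le)
      · have h5 : N ≤ w.e γ := by
          by_contra hcon
          push Not at hcon
          have := hM w (hK3 ⟨h1, hcon⟩)
          exact absurd ((le_max_right j M).trans h4) (not_le.2 this)
        have h6 := hN w h1 h5
        refine Or.inr ⟨?_, ?_, ?_⟩
        · rw [Sp.ret_lt h1]; exact h
        · rw [← h6]; exact h3
        · rw [← h6]; exact (le_max_left j M).trans h4
    · rw [Sp.ret_ge h1]
      exact x.nb_anti (le_max_left _ _) hw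

theorem Sp.preimage_ret (hf : ∀ γ, Req 𝓔 γ f (f γ)) (γ : I) (q : Sp f) :
    ∃ K : Set (Sp f), IsCompact K ∧ Sp.ret (f := f) γ ⁻¹' (q.nb 0) ⊆ K := by
  rcases lt_trichotomy q.lv γ with h | h | h
  · refine ⟨∅, isCompact_empty, fun w hw => ?_⟩
    have h1 : (w.ret γ).lv ≤ q.lv := Sp.lv_le hw
    exact absurd (Sp.le_lv_ret γ w) (not_le.2 (h1.trans_lt h))
  · refine ⟨q.nb 0, Sp.isCompact_nb_zero hf q, fun w hw => ?_⟩
    rcases lt_or_ge w.lv γ with h1 | h1
    · rw [mem_preimage, Sp.ret_lt h1] at hw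
      rcases hw with h2 | ⟨h2, -, -⟩
      · refine Or.inr ⟨by rw [h]; exact h1, ?_, Nat.zero_le _⟩
        rw [← h2]
        rfl
      · rw [h] at h2
        exact absurd h2 (lt_irrefl _)
    · rw [mem_preimage, Sp.ret_ge h1] at hw
      exact hw
  · obtain ⟨N, hN⟩ := Sp.coh_ret hf h
    obtain ⟨K, hK1, hK2, hK3⟩ := Sp.exists_compact_sublevel hf γ N
    refine ⟨q.nb 0 ∪ K, (Sp.isCompact_nb_zero hf q).union hK1, fun w hw => ?_⟩
    rcases lt_or_ge w.lv γ with h1 | h1
    · rcases lt_or_ge (w.e γ) N with h2 | h2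
      · exact Or.inr (hK3 ⟨h1, h2⟩)
      · left
        have h3 := hN w h1 h2
        rw [mem_preimage] at hw
        rcases hw with h4 | ⟨h4, h5, -⟩
        · exfalso
          rw [Sp.ret_lt h1] at h4
          have h6 : γ = q.lv := by rw [← h4]; rfl
          exact absurd h6 h.ne
        · refine Or.inr ⟨h1.trans h, ?_, Nat.zero_le _⟩
          rw [h3]; exact h5
    · rw [mem_preimage, Sp.ret_ge h1] at hw
      exact Or.inl hw

theorem Sp.tendsto_ret (hf : ∀ γ, Req 𝓔 γ f (f γ)) (γ : I) :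
    Tendsto (Sp.ret (f := f) γ) (coclosedCompact (Sp f)) (coclosedCompact (Sp f)) := by
  have := Sp.t2 hf
  rw [coclosedCompact_eq_cocompact, hasBasis_cocompact.tendsto_iff hasBasis_cocompact]
  intro K hK
  -- cover `K` by finitely many basic neighbourhoods
  obtain ⟨t, ht1, ht2⟩ := hK.elim_nhds_subcover (fun x => x.nb 0)
    (fun x _ => Sp.nb_mem_nhds hf x 0)
  choose K' hK'1 hK'2 using Sp.preimage_ret hf γ
  refine ⟨⋃ x ∈ t, K' x, t.finite_toSet.isCompact_biUnion fun x _ => hK'1 x, fun w hw hwK => ?_⟩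
  apply hw
  have h1 := ht2 hwK
  simp only [mem_iUnion] at h1 ⊢
  obtain ⟨x, hx, hx'⟩ := h1
  exact ⟨x, hx, hK'2 x hx'⟩

omit [WellFoundedLT I] in
/-- compact sets are bounded -/
theorem Sp.bounded_of_compact [Nonempty I] {K : Set (Sp f)} (hK : IsCompact K) :
    ∃ γ : I, ∀ z ∈ K, z.lv ≤ γ := by
  obtain ⟨t, ht⟩ := hK.elim_finite_subcover (fun γ : I => {z : Sp f | z.lv ≤ γ})
    (fun γ => Sp.isOpen_le γ) (fun z _ => mem_iUnion.2 ⟨z.lv, le_rfl⟩)
  classical
  rcases t.eq_empty_or_nonempty with h | h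
  · subst h
    refine ⟨Classical.arbitrary I, fun z hz => ?_⟩
    have := ht hz
    simp at this
  · refine ⟨t.max' h, fun z hz => ?_⟩
    have := ht hz
    simp only [mem_iUnion] at this
    obtain ⟨γ, hγ, hz'⟩ := this
    exact le_trans hz' (t.le_max' γ hγ)

/-- the block of level `γ` is dense in `{lv ≥ γ}` -/
theorem Sp.dense_block (hf : ∀ γ, Req 𝓔 γ f (f γ)) (γ : I) (z : Sp f) (hz : γ ≤ z.lv) :
    z ∈ closure {w : Sp f | w.lv = γ} := by
  have wf : WellFounded (fun i j : I => i < j) := wellFounded_lt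
  have main : ∀ δ : I, ∀ z : Sp f, z.lv = δ → γ ≤ δ → z ∈ closure {w : Sp f | w.lv = γ} := by
    intro δ
    induction δ using wf.induction with
    | _ δ ih =>
      intro z hz hγδ
      rcases hγδ.eq_or_lt with h | h
      · exact subset_closure (hz.trans h.symm)
      · rw [mem_closure_iff_nhds]
        intro V hV
        obtain ⟨j, hj⟩ := (Sp.mem_nhds_iff hf).1 hV
        obtain ⟨w, hw1, hw2, hw3, hw4⟩ := (hf δ).dense γ h z.pt.2 j
        have h1 : (⟨w⟩ : Sp f) ∈ z.nb j := by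
          refine Or.inr ⟨?_, ?_, ?_⟩
          · rw [hz]; exact hw2
          · rw [hz]; exact hw4
          · rw [hz]; exact hw3
        have h2 : (⟨w⟩ : Sp f) ∈ closure {w : Sp f | w.lv = γ} := ih w.1 hw2 ⟨w⟩ rfl hw1
        have h3 := Sp.isOpen_nb hf z j
        rw [mem_closure_iff_nhds] at h2
        obtain ⟨v, hv1, hv2⟩ := h2 _ (h3.mem_nhds h1)
        exact ⟨v, hj hv1, hv2⟩
  exact main z.lv z rfl hz

end Pool.Agent.Lib.MP_302921_gt
end

section

open Set Filter Topology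

namespace Pool.Agent.Lib.MP_302921_gt

universe u

/-- retractions in spaces with countably many clopen sets separating the points of a compact set -/
theorem exists_retraction {Z : Type u} [TopologicalSpace Z] {C A : Set Z}
    (hC : IsCompact C) (hA : IsClosed A) (hne : (A ∩ C).Nonempty) (V : ℕ → Set Z)
    (hV : ∀ n, IsClopen (V n))
    (hsep : ∀ x ∈ C, ∀ y ∈ C, x ≠ y → ∃ n, x ∈ V n ∧ y ∉ V n) :
    ∃ s : Z → Z, ContinuousOn s C ∧ MapsTo s C (A ∩ C) ∧ ∀ x ∈ A ∩ C, s x = x := by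
  classical
  let ι : Z → (ℕ → Bool) := fun z n => decide (z ∈ V n)
  have hι : Continuous ι := by
    refine continuous_pi fun n => ?_
    have : Continuous fun z => (decide (z ∈ V n) : Bool) := by
      rw [continuous_discrete_rng]
      intro b
      cases b with
      | false =>
        have : (fun z => (decide (z ∈ V n) : Bool)) ⁻¹' {false} = (V n)ᶜ := by
          ext z; simp
        rw [this]
        exact (hV n).isClosed.isOpen_compl
      | true =>
        have : (fun z => (decide (z ∈ V n) : Bool)) ⁻¹' {true} = V n := by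
          ext z; simp
        rw [this]
        exact (hV n).isOpen
    exact this
  have hAC : IsCompact (A ∩ C) := hC.inter_left hA
  have hinj : InjOn ι C := by
    intro x hx y hy hxy
    by_contra hne
    obtain ⟨n, h1, h2⟩ := hsep x hx y hy hne
    have h3 := congrFun hxy n
    simp only [ι, h1, h2, decide_true, decide_false] at h3
    exact absurd h3 (by decide)
  have hcl : IsClosed (ι '' (A ∩ C)) := (hAC.image hι).isClosed
  obtain ⟨R, hR1, hR2, hR3⟩ := PiNat.exists_retraction_of_isClosed (E := fun _ : ℕ => Bool) hcl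
    (hne.image ι)
  have : CompactSpace (A ∩ C : Set Z) := isCompact_iff_compactSpace.1 hAC
  let j : (A ∩ C : Set Z) → (ι '' (A ∩ C) : Set (ℕ → Bool)) := fun z => ⟨ι z, z, z.2, rfl⟩
  have hj : Continuous j := Continuous.subtype_mk (hι.comp continuous_subtype_val) _
  have hjinj : Function.Injective j := by
    intro x y hxy
    have : ι x = ι y := congrArg Subtype.val hxy
    exact Subtype.ext (hinj x.2.2 y.2.2 this)
  have hjsurj : Function.Surjective j := by
    rintro ⟨_, z, hz, rfl⟩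
    exact ⟨⟨z, hz⟩, rfl⟩
  let J : (A ∩ C : Set Z) ≃ₜ (ι '' (A ∩ C) : Set (ℕ → Bool)) :=
    Continuous.homeoOfEquivCompactToT2 (f := Equiv.ofBijective j ⟨hjinj, hjsurj⟩) hj
  have hRmem : ∀ w, R w ∈ ι '' (A ∩ C) := fun w => by rw [← hR2]; exact ⟨w, rfl⟩
  let s : Z → Z := fun z => (J.symm ⟨R (ι z), hRmem _⟩ : Z)
  have hs : Continuous s :=
    continuous_subtype_val.comp (J.symm.continuous.comp
      (Continuous.subtype_mk (hR3.comp hι) _))
  refine ⟨s, hs.continuousOn, fun z _ => (J.symm ⟨R (ι z), hRmem _⟩).2, fun x hx => ?_⟩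
  have h1 : R (ι x) = ι x := hR1 _ ⟨x, hx, rfl⟩
  have h2 : (⟨R (ι x), hRmem _⟩ : (ι '' (A ∩ C) : Set (ℕ → Bool))) = J ⟨x, hx⟩ :=
    Subtype.ext h1
  simp only [s]
  rw [h2, J.symm_apply_apply]

variable {I : Type u} [LinearOrder I] [WellFoundedLT I]
  {𝓔 : I → Set (Set ((I × ℕ) × (I × ℕ)))} {f : I → Dat I}

/-- the tail of the one-point compactification -/
def tail (f : I → Dat I) (γ : I) : Set (OnePoint (Sp f)) := {x | ∀ z : Sp f, x = ↑z → γ ≤ z.lv}

omit [WellFoundedLT I] in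
theorem infty_mem_tail (γ : I) : (OnePoint.infty : OnePoint (Sp f)) ∈ tail f γ :=
  fun z hz => absurd hz (OnePoint.infty_ne_coe z)

omit [WellFoundedLT I] in
theorem coe_mem_tail {γ : I} {z : Sp f} : (z : OnePoint (Sp f)) ∈ tail f γ ↔ γ ≤ z.lv := by
  constructor
  · intro h; exact h z rfl
  · intro h w hw
    rw [OnePoint.coe_eq_coe] at hw
    rw [← hw]; exact h

omit [WellFoundedLT I] in
theorem isClosed_tail (γ : I) : IsClosed (tail f γ) := by
  rw [← isOpen_compl_iff]
  have : (tail f γ)ᶜ = ((↑) : Sp f → OnePoint (Sp f)) '' {z | z.lv < γ} := by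
    ext x
    constructor
    · intro hx
      simp only [tail, mem_compl_iff, mem_ofPred_eq, not_forall, not_le] at hx
      obtain ⟨z, hz, hz'⟩ := hx
      exact ⟨z, hz', hz.symm⟩
    · rintro ⟨z, hz, rfl⟩ h
      rw [coe_mem_tail] at h
      exact absurd h (not_le.2 hz)
  rw [this, OnePoint.isOpen_image_coe]
  exact Sp.isOpen_lt γ

theorem isFrame (hf : ∀ γ, Req 𝓔 γ f (f γ)) (hc : ∀ i : I, (Iio i).Countable) (γ : I) :
    IsFrame (X := OnePoint (Sp f)) (tail f γ) OnePoint.infty (OnePoint.map (Sp.ret γ))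
      (fun m => ((↑) : Sp f → OnePoint (Sp f)) '' Sp.fib f γ m) := by
  classical
  have ht2 := Sp.t2 hf
  have hwlc := Sp.wlc hf
  -- countable separating family of clopen sets
  have hcount : {q : Sp f | q.lv < γ}.Countable := by
    have h1 : ((Iio γ) ×ˢ (univ : Set ℕ)).Countable := (hc γ).prod countable_univ
    have h2 : {q : Sp f | q.lv < γ} = (fun p : I × ℕ => (⟨p⟩ : Sp f)) '' ((Iio γ) ×ˢ univ) := by
      ext q
      constructor
      · intro hq
        exact ⟨q.pt, ⟨hq, mem_univ _⟩, rfl⟩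
      · rintro ⟨p, hp, rfl⟩
        exact hp.1
    rw [h2]
    exact h1.image _
  have hVex : ∃ V : ℕ → Set (OnePoint (Sp f)), (∀ n, IsClopen (V n)) ∧
      ∀ x : Sp f, x.lv < γ → ∀ y : Sp f, x ≠ y → ∃ n, (x : OnePoint (Sp f)) ∈ V n ∧
        (y : OnePoint (Sp f)) ∉ V n := by
    set 𝒱 : Set (Set (OnePoint (Sp f))) := insert ∅
      ((fun p : Sp f × ℕ => ((↑) : Sp f → OnePoint (Sp f)) '' (p.1.nb p.2)) ''
        ({q : Sp f | q.lv < γ} ×ˢ (univ : Set ℕ))) with h𝒱
    have h𝒱c : 𝒱.Countable := ((hcount.prod countable_univ).image _).insert _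
    obtain ⟨V, hV⟩ := h𝒱c.exists_eq_range ⟨∅, mem_insert _ _⟩
    refine ⟨V, fun n => ?_, fun x hx y hxy => ?_⟩
    · have : V n ∈ 𝒱 := by rw [hV]; exact ⟨n, rfl⟩
      rcases this with h | ⟨p, hp, h⟩
      · rw [h]; exact isClopen_empty
      · rw [← h]
        refine ⟨?_, ?_⟩
        · rw [OnePoint.isClosed_image_coe]
          exact ⟨Sp.isClosed_nb hf _ _, Sp.isCompact_nb hf _ _⟩
        · rw [OnePoint.isOpen_image_coe]
          exact Sp.isOpen_nb hf _ _
    · have h1 : {y}ᶜ ∈ 𝓝 x := isClosed_singleton.isOpen_compl.mem_nhds hxy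
      obtain ⟨j, hj⟩ := (Sp.mem_nhds_iff hf).1 h1
      have h2 : ((↑) : Sp f → OnePoint (Sp f)) '' (x.nb j) ∈ 𝒱 :=
        Or.inr ⟨(x, j), ⟨hx, mem_univ _⟩, rfl⟩
      rw [hV] at h2
      obtain ⟨n, hn⟩ := h2
      refine ⟨n, ?_, ?_⟩
      · rw [hn]; exact ⟨x, x.self_mem j, rfl⟩
      · rw [hn]
        rintro ⟨w, hw, hwy⟩
        rw [OnePoint.coe_eq_coe] at hwy
        rw [hwy] at hw
        exact hj hw rfl
  obtain ⟨V, hV1, hV2⟩ := hVex
  have hLclopen : ∀ m, IsClopen (((↑) : Sp f → OnePoint (Sp f)) '' Sp.fib f γ m) := by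
    intro m
    refine ⟨?_, ?_⟩
    · rw [OnePoint.isClosed_image_coe]
      exact ⟨Sp.isClosed_fib hf _ _, Sp.isCompact_fib hf _ _⟩
    · rw [OnePoint.isOpen_image_coe]
      exact Sp.isOpen_fib hf _ _
  have hLcomp : ∀ m, IsCompact (((↑) : Sp f → OnePoint (Sp f)) '' Sp.fib f γ m) :=
    fun m => (hLclopen m).isClosed.isCompact
  refine ⟨isClosed_tail γ, infty_mem_tail γ, ?_, ?_, ?_, hLclopen, ?_, ?_, ?_, ?_, ?_, ?_⟩
  · exact OnePoint.continuous_map (Sp.continuous_ret hf γ) (Sp.tendsto_ret hf γ)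
  · intro x
    induction x using OnePoint.rec with
    | infty => exact infty_mem_tail γ
    | coe z =>
      rw [OnePoint.map_some, coe_mem_tail]
      exact Sp.le_lv_ret γ z
  · intro x hx
    induction x using OnePoint.rec with
    | infty => rfl
    | coe z =>
      rw [OnePoint.map_some, Sp.ret_ge (coe_mem_tail.1 hx)]
  · rintro m n _ ⟨z, hz, rfl⟩ ⟨w, hw, hwz⟩
    rw [OnePoint.coe_eq_coe] at hwz
    rw [← hz.2, ← hw.2, hwz]
  · intro x
    induction x using OnePoint.rec with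
    | infty => exact Or.inl (infty_mem_tail γ)
    | coe z =>
      rcases lt_or_ge z.lv γ with h | h
      · exact Or.inr ⟨z.e γ, z, ⟨h, rfl⟩, rfl⟩
      · exact Or.inl (coe_mem_tail.2 h)
  · rintro m _ ⟨z, hz, rfl⟩ h
    rw [coe_mem_tail] at h
    exact absurd h (not_le.2 hz.1)
  · rintro m _ _ ⟨z, hz, rfl⟩ ⟨w, hw, rfl⟩
    rw [OnePoint.map_some, OnePoint.map_some, Sp.ret_lt hz.1, Sp.ret_lt hw.1, hz.2, hw.2]
  · intro m A hA hne
    refine exists_retraction (hLcomp m) hA hne V hV1 ?_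
    rintro _ ⟨z, hz, rfl⟩ _ ⟨w, hw, rfl⟩ hzw
    exact hV2 z hz.1 w (fun h => hzw (by rw [h]))
  · intro m n A hA hne
    -- clopen sets of the product
    let V' : ℕ → Set (OnePoint (Sp f) × OnePoint (Sp f)) := fun k =>
      if k % 2 = 0 then Prod.fst ⁻¹' (V (k / 2)) else Prod.snd ⁻¹' (V (k / 2))
    refine exists_retraction ((hLcomp m).prod (hLcomp n)) hA hne V' ?_ ?_
    · intro k
      simp only [V']
      split_ifs
      · exact (hV1 _).preimage continuous_fst
      · exact (hV1 _).preimage continuous_snd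
    · rintro ⟨_, _⟩ ⟨⟨z, hz, rfl⟩, ⟨w, hw, rfl⟩⟩ ⟨_, _⟩ ⟨⟨z', hz', rfl⟩, ⟨w', hw', rfl⟩⟩ hne'
      by_cases h1 : z = z'
      · have h2 : w ≠ w' := by
          intro h
          apply hne'
          simp only [h1, h]
        obtain ⟨k, hk1, hk2⟩ := hV2 w hw.1 w' h2
        refine ⟨2 * k + 1, ?_⟩
        simp only [V']
        rw [if_neg (by omega), show (2 * k + 1) / 2 = k by omega]
        exact ⟨hk1, hk2⟩
      · obtain ⟨k, hk1, hk2⟩ := hV2 z hz.1 z' h1
        refine ⟨2 * k, ?_⟩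
        simp only [V']
        rw [if_pos (by omega), show 2 * k / 2 = k by omega]
        exact ⟨hk1, hk2⟩

/-- the block of level `γ` is dense in the tail -/
theorem tail_subset_closure (hf : ∀ γ, Req 𝓔 γ f (f γ))
    (hb : ∀ i : I, ∃ j, i < j) (γ : I) :
    tail f γ ⊆ closure (((↑) : Sp f → OnePoint (Sp f)) '' {w : Sp f | w.lv = γ}) := by
  have hcoe : ∀ z : Sp f, γ ≤ z.lv → (z : OnePoint (Sp f)) ∈
      closure (((↑) : Sp f → OnePoint (Sp f)) '' {w : Sp f | w.lv = γ}) := fun z hz =>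
    image_closure_subset_closure_image OnePoint.continuous_coe
      ⟨z, Sp.dense_block hf γ z hz, rfl⟩
  intro x hx
  induction x using OnePoint.rec with
  | infty =>
    rw [mem_closure_iff]
    intro O hO hmem
    rw [OnePoint.isOpen_iff_of_mem hmem] at hO
    have : Nonempty I := ⟨γ⟩
    obtain ⟨δ, hδ⟩ := Sp.bounded_of_compact hO.2
    obtain ⟨ε, hε⟩ := hb (max δ γ)
    set z : Sp f := ⟨(ε, 0)⟩ with hz
    have h1 : (z : OnePoint (Sp f)) ∈ O := by
      by_contra hcon
      have := hδ z hcon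
      exact absurd ((le_max_left δ γ).trans_lt hε) (not_lt.2 this)
    have h2 := hcoe z ((le_max_right δ γ).trans hε.le)
    have h3 : IsOpen O := by
      rw [OnePoint.isOpen_iff_of_mem hmem]; exact hO
    rw [mem_closure_iff] at h2
    exact h2 O h3 h1
  | coe z => exact hcoe z (coe_mem_tail.1 hx)

end Pool.Agent.Lib.MP_302921_gt
end

section

open Set Filter Topology TopologicalSpace

namespace Pool.Agent.Lib.MP_302921_gt

universe u

section catching

variable {I : Type u} [LinearOrder I] [WellFoundedLT I]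
  {𝓔 : I → Set (Set ((I × ℕ) × (I × ℕ)))} {f : I → Dat I}

/-- points of the one-point compactification -/
def pnt (f : I → Dat I) (a : Option (I × ℕ)) : OnePoint (Sp f) :=
  match a with
  | none => OnePoint.infty
  | some p => ((⟨p⟩ : Sp f) : OnePoint (Sp f))

theorem catch2 (hf : ∀ γ, Req 𝓔 γ f (f γ)) (hb : ∀ i : I, ∃ j, i < j) {γ : I}
    (hγ : ∃ β, β < γ) {F : Set (OnePoint (Sp f) × OnePoint (Sp f))} (hF : IsClosed F)
    (P : Set ((I × ℕ) × (I × ℕ))) (hE : P ∈ 𝓔 γ)
    (hPF : ∀ x y : I × ℕ, x.1 < γ → y.1 < γ → ((x, y) ∈ P ↔ (pnt f (some x), pnt f (some y)) ∈ F))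
    (hunb : ∀ α < γ, ∃ β < γ, ∃ x y : I × ℕ, (pnt f (some x), pnt f (some y)) ∈ F ∧ x ≠ y ∧
      α < x.1 ∧ x.1 < β ∧ α < y.1 ∧ y.1 < β) : tail f γ ×ˢ tail f γ ⊆ F := by
  have hbig : Big γ P := by
    intro α hα
    obtain ⟨β, hβ, x, y, hxy, hne, h1, h2, h3, h4⟩ := hunb α hα
    exact ⟨x, y, (hPF x y (h2.trans hβ) (h4.trans hβ)).2 hxy, hne, h1, h2.trans hβ, h3,
      h4.trans hβ⟩
  have hB : (((↑) : Sp f → OnePoint (Sp f)) '' {w : Sp f | w.lv = γ}) ×ˢ
      (((↑) : Sp f → OnePoint (Sp f)) '' {w : Sp f | w.lv = γ}) ⊆ F := by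
    rintro ⟨_, _⟩ ⟨⟨v, hv, rfl⟩, ⟨w, hw, rfl⟩⟩
    by_contra hcon
    have h1 : Fᶜ ∈ 𝓝 ((v : OnePoint (Sp f)), (w : OnePoint (Sp f))) :=
      hF.isOpen_compl.mem_nhds hcon
    rw [nhds_prod_eq, mem_prod_iff] at h1
    obtain ⟨V, hV, W, hW, hVW⟩ := h1
    have hV' : ((↑) : Sp f → OnePoint (Sp f)) ⁻¹' V ∈ 𝓝 v :=
      OnePoint.continuous_coe.continuousAt.preimage_mem_nhds hV
    have hW' : ((↑) : Sp f → OnePoint (Sp f)) ⁻¹' W ∈ 𝓝 w :=
      OnePoint.continuous_coe.continuousAt.preimage_mem_nhds hW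
    obtain ⟨i, hi⟩ := (Sp.mem_nhds_iff hf).1 hV'
    obtain ⟨j, hj⟩ := (Sp.mem_nhds_iff hf).1 hW'
    obtain ⟨x, y, hxy, hx, hy, hx1, hx2, hy1, hy2⟩ :=
      (hf γ).task hγ P hE hbig v.pt.2 w.pt.2 (max i j)
    have h2 : (⟨x⟩ : Sp f) ∈ v.nb i := by
      refine Or.inr ⟨?_, ?_, ?_⟩
      · rw [hv]; exact hx
      · rw [hv]; exact hx1
      · rw [hv]; exact (le_max_left i j).trans hx2
    have h3 : (⟨y⟩ : Sp f) ∈ w.nb j := by
      refine Or.inr ⟨?_, ?_, ?_⟩
      · rw [hw]; exact hy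
      · rw [hw]; exact hy1
      · rw [hw]; exact (le_max_right i j).trans hy2
    have h4 : (pnt f (some x), pnt f (some y)) ∈ V ×ˢ W := ⟨hi h2, hj h3⟩
    exact hVW h4 ((hPF x y hx hy).1 hxy)
  calc tail f γ ×ˢ tail f γ ⊆ closure (((↑) : Sp f → OnePoint (Sp f)) '' {w : Sp f | w.lv = γ}) ×ˢ
        closure (((↑) : Sp f → OnePoint (Sp f)) '' {w : Sp f | w.lv = γ}) :=
        prod_mono (tail_subset_closure hf hb γ) (tail_subset_closure hf hb γ)
    _ = closure _ := closure_prod_eq.symm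
    _ ⊆ F := closure_minimal hB hF

theorem catch1 (hf : ∀ γ, Req 𝓔 γ f (f γ)) (hb : ∀ i : I, ∃ j, i < j) {γ : I}
    (hγ : ∃ β, β < γ) {Z : Set (OnePoint (Sp f))} (hZ : IsClosed Z)
    (P : I × ℕ → Prop) (hE : {p : (I × ℕ) × (I × ℕ) | P p.1 ∧ P p.2} ∈ 𝓔 γ)
    (hPZ : ∀ x : I × ℕ, x.1 < γ → (P x ↔ pnt f (some x) ∈ Z))
    (hunb : ∀ α < γ, ∃ β < γ, ∃ x : I × ℕ, pnt f (some x) ∈ Z ∧ α < x.1 ∧ x.1 < β) :
    tail f γ ⊆ Z := by
  have h := catch2 hf hb hγ (F := Z ×ˢ Z) (hZ.prod hZ) _ hE ?_ ?_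
  · intro x hx
    have h' : (x, x) ∈ tail f γ ×ˢ tail f γ := ⟨hx, hx⟩
    exact (h h').1
  · intro x y hx hy
    exact and_congr (hPZ x hx) (hPZ y hy)
  · intro α hα
    obtain ⟨β, hβ, x, hx, h1, h2⟩ := hunb α hα
    obtain ⟨β', hβ', y, hy, h3, h4⟩ := hunb x.1 (h2.trans hβ)
    refine ⟨max β β', max_lt hβ hβ', x, y, ⟨hx, hy⟩, fun h => ?_, h1,
      h2.trans_le (le_max_left _ _), h1.trans h3, h4.trans_le (le_max_right _ _)⟩
    rw [h] at h3
    exact lt_irrefl _ h3

end catching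

section main

/-- levels below `γ` -/
def lvl (γ : Omega1) (a : Option (Omega1 × ℕ)) : Prop := ∀ x, a = some x → x.1 < γ

/-- the tasks determined by a guessing sequence -/
def tasks (A : Omega1 → Set (Option (Omega1 × ℕ) × Option (Omega1 × ℕ))) (γ : Omega1) :
    Set (Set ((Omega1 × ℕ) × (Omega1 × ℕ))) :=
  {univ, {p | (some p.1, some p.2) ∈ A γ},
    {p | (some p.1, some p.1) ∈ A γ ∧ (some p.2, some p.2) ∈ A γ}} ∪
  ((fun a => {p : (Omega1 × ℕ) × (Omega1 × ℕ) | (a, some p.1) ∈ A γ ∧ (a, some p.2) ∈ A γ}) ''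
    {a | lvl γ a}) ∪
  ((fun a => {p : (Omega1 × ℕ) × (Omega1 × ℕ) | (some p.1, a) ∈ A γ ∧ (some p.2, a) ∈ A γ}) ''
    {a | lvl γ a})

theorem lvl_countable (γ : Omega1) : {a : Option (Omega1 × ℕ) | lvl γ a}.Countable := by
  have h1 : ({none} ∪ some '' ((Iio γ) ×ˢ (Set.univ : Set ℕ)) :
      Set (Option (Omega1 × ℕ))).Countable :=
    (countable_singleton _).union (((omega1_Iio_countable γ).prod countable_univ).image _)
  refine h1.mono ?_
  intro a ha
  cases a with
  | none => exact Or.inl rfl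
  | some x => exact Or.inr ⟨x, ⟨ha x rfl, mem_univ _⟩, rfl⟩

theorem tasks_countable (A : Omega1 → Set (Option (Omega1 × ℕ) × Option (Omega1 × ℕ)))
    (γ : Omega1) : (tasks A γ).Countable := by
  refine Countable.union (Countable.union ?_ ((lvl_countable γ).image _))
    ((lvl_countable γ).image _)
  exact Set.Finite.countable (by simp)

theorem ext_closed {A : Omega1 → Set (Option (Omega1 × ℕ) × Option (Omega1 × ℕ))}
    (hA : ∀ (Y : Set (Option (Omega1 × ℕ) × Option (Omega1 × ℕ))) (F : Omega1 → Omega1),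
        ∃ γ, (∃ β, β < γ) ∧ (∀ δ < γ, F δ < γ) ∧ ∀ z ∈ below γ, z ∈ Y ↔ z ∈ A γ)
    {f : Omega1 → Dat Omega1} (hf : ∀ γ, Req (tasks A) γ f (f γ))
    {F : Set (OnePoint (Sp f) × OnePoint (Sp f))} (hF : IsClosed F) : Ext F univ := by
  classical
  have ht2 := Sp.t2 hf
  have hwlc := Sp.wlc hf
  have hb : ∀ i : Omega1, ∃ j, i < j := by
    intro i
    obtain ⟨j, hj⟩ := omega1_bound {i} (countable_singleton _)
    exact ⟨j, hj i rfl⟩
  -- the least element
  obtain ⟨w0, -⟩ := omega1_bound ∅ countable_empty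
  have wf : WellFounded (fun i j : Omega1 => i < j) := wellFounded_lt
  set i₀ : Omega1 := wf.min Set.univ ⟨w0, mem_univ _⟩ with hi₀
  have hi₀le : ∀ i, i₀ ≤ i := fun i => not_lt.1 (wf.not_lt_min _ (mem_univ i))
  let ℓ : Option (Omega1 × ℕ) → Omega1 := fun a => match a with
    | none => i₀
    | some x => x.1
  have hℓ : ∀ i, {a | ℓ a ≤ i}.Countable := by
    intro i
    obtain ⟨j, hj⟩ := hb i
    refine (lvl_countable j).mono fun a ha => ?_
    intro x hx
    subst hx
    exact lt_of_le_of_lt ha hj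
  have hℓu : ∀ i, {u : Unit | (fun _ => i₀) u ≤ i}.Countable := fun i => Set.to_countable _
  obtain ⟨G1, hG1⟩ := exists_reflect omega1_bound omega1_Iio_countable ℓ hℓ
    (fun a α β => ∃ x : Omega1 × ℕ, (pnt f a, pnt f (some x)) ∈ F ∧ α < x.1 ∧ x.1 < β)
  obtain ⟨G2, hG2⟩ := exists_reflect omega1_bound omega1_Iio_countable ℓ hℓ
    (fun a α β => ∃ x : Omega1 × ℕ, (pnt f (some x), pnt f a) ∈ F ∧ α < x.1 ∧ x.1 < β)
  obtain ⟨G3, hG3⟩ := exists_reflect omega1_bound omega1_Iio_countable (fun _ : Unit => i₀) hℓu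
    (fun _ α β => ∃ x : Omega1 × ℕ, (pnt f (some x), pnt f (some x)) ∈ F ∧ α < x.1 ∧ x.1 < β)
  obtain ⟨G4, hG4⟩ := exists_reflect omega1_bound omega1_Iio_countable (fun _ : Unit => i₀) hℓu
    (fun _ α β => ∃ x y : Omega1 × ℕ, (pnt f (some x), pnt f (some y)) ∈ F ∧ x ≠ y ∧
      α < x.1 ∧ x.1 < β ∧ α < y.1 ∧ y.1 < β)
  obtain ⟨γ, hγ, hγG, hguess⟩ := hA {z | (pnt f z.1, pnt f z.2) ∈ F}
    (fun δ => max (max (G1 δ) (G2 δ)) (max (G3 δ) (G4 δ)))
  have h1 := hG1 γ fun δ hδ =>
    ((le_max_left _ _).trans (le_max_left _ _)).trans_lt (hγG δ hδ)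
  have h2 := hG2 γ fun δ hδ =>
    ((le_max_right _ _).trans (le_max_left _ _)).trans_lt (hγG δ hδ)
  have h3 := hG3 γ fun δ hδ =>
    ((le_max_left _ _).trans (le_max_right _ _)).trans_lt (hγG δ hδ)
  have h4 := hG4 γ fun δ hδ =>
    ((le_max_right _ _).trans (le_max_right _ _)).trans_lt (hγG δ hδ)
  have hi₀γ : i₀ < γ := by
    obtain ⟨β, hβ⟩ := hγ
    exact (hi₀le β).trans_lt hβ
  have hℓγ : ∀ a, lvl γ a → ℓ a < γ := by
    intro a ha
    cases a with
    | none => exact hi₀γ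
    | some x => exact ha x rfl
  -- every point is of the form `pnt f a`
  have hpnt : ∀ x : OnePoint (Sp f), (x ∉ tail f γ ∨ x = OnePoint.infty) →
      ∃ a, lvl γ a ∧ x = pnt f a := by
    intro x hx
    induction x using OnePoint.rec with
    | infty => exact ⟨none, ⟨fun y hy => (by cases hy), rfl⟩⟩
    | coe z =>
      refine ⟨some z.pt, fun y hy => ?_, rfl⟩
      cases hy
      rcases hx with hx | hx
      · rw [coe_mem_tail, not_le] at hx
        exact hx
      · exact absurd hx (OnePoint.coe_ne_infty z)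
  have htail : ∀ t ∈ tail f γ, t = OnePoint.infty ∨ ∃ y : Omega1 × ℕ, t = pnt f (some y) ∧
      γ ≤ y.1 := by
    intro t ht
    induction t using OnePoint.rec with
    | infty => exact Or.inl rfl
    | coe z => exact Or.inr ⟨z.pt, rfl, coe_mem_tail.1 ht⟩
  refine (isFrame hf omega1_Iio_countable γ).ext hF ?_ ?_ ?_ ?_
  · intro x hx
    obtain ⟨a, ha, rfl⟩ := hpnt x hx
    rcases h1 a (hℓγ a ha) with h | h
    · left
      have hZ : IsClosed {t | (pnt f a, t) ∈ F} :=
        hF.preimage (continuous_const.prodMk continuous_id)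
      have := catch1 hf hb hγ hZ (fun y => (a, some y) ∈ A γ)
        (Or.inl (Or.inr ⟨a, ha, rfl⟩)) ?_ h
      · exact fun t ht => this ht
      · intro y hy
        rw [← hguess (a, some y) ⟨ha, fun x hx => by cases hx; exact hy⟩]
        rfl
    · right
      obtain ⟨α, hα, hno⟩ := h
      intro t ht htF
      rcases htail t ht with h' | ⟨y, rfl, hy⟩
      · exact h'
      · exfalso
        obtain ⟨β, hβ⟩ := hb y.1
        exact hno β ⟨y, htF, hα.trans_le hy, hβ⟩
  · intro x hx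
    obtain ⟨a, ha, rfl⟩ := hpnt x hx
    rcases h2 a (hℓγ a ha) with h | h
    · left
      have hZ : IsClosed {t | (t, pnt f a) ∈ F} :=
        hF.preimage (continuous_id.prodMk continuous_const)
      have := catch1 hf hb hγ hZ (fun y => (some y, a) ∈ A γ)
        (Or.inr ⟨a, ha, rfl⟩) ?_ h
      · exact fun t ht => this ht
      · intro y hy
        rw [← hguess (some y, a) ⟨fun x hx => by cases hx; exact hy, ha⟩]
        rfl
    · right
      obtain ⟨α, hα, hno⟩ := h
      intro t ht htF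
      rcases htail t ht with h' | ⟨y, rfl, hy⟩
      · exact h'
      · exfalso
        obtain ⟨β, hβ⟩ := hb y.1
        exact hno β ⟨y, htF, hα.trans_le hy, hβ⟩
  · rcases h3 () hi₀γ with h | h
    · left
      have hZ : IsClosed {t | (t, t) ∈ F} :=
        hF.preimage (continuous_id.prodMk continuous_id)
      have := catch1 hf hb hγ hZ (fun y => (some y, some y) ∈ A γ)
        (Or.inl (Or.inl (by simp))) ?_ h
      · exact fun t ht => this ht
      · intro y hy
        rw [← hguess (some y, some y) ⟨fun x hx => by cases hx; exact hy,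
          fun x hx => by cases hx; exact hy⟩]
        rfl
    · right
      obtain ⟨α, hα, hno⟩ := h
      intro t ht htF
      rcases htail t ht with h' | ⟨y, rfl, hy⟩
      · exact h'
      · exfalso
        obtain ⟨β, hβ⟩ := hb y.1
        exact hno β ⟨y, htF, hα.trans_le hy, hβ⟩
  · rcases h4 () hi₀γ with h | h
    · left
      refine catch2 hf hb hγ hF {p | (some p.1, some p.2) ∈ A γ}
        (Or.inl (Or.inl (by simp))) ?_ h
      intro x y hx hy
      rw [mem_ofPred_eq, ← hguess (some x, some y) ⟨fun z hz => by cases hz; exact hx,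
        fun z hz => by cases hz; exact hy⟩]
      rfl
    · right
      obtain ⟨α, hα, hno⟩ := h
      intro x hx y hy hxy
      rcases htail x hx with h' | ⟨x', rfl, hx'⟩
      · exact Or.inr (Or.inl h')
      · rcases htail y hy with h' | ⟨y', rfl, hy'⟩
        · exact Or.inr (Or.inr h')
        · left
          by_contra hne
          obtain ⟨β, hβ⟩ := hb (max x'.1 y'.1)
          refine hno β ⟨x', y', hxy, fun h => hne (by rw [h]), hα.trans_le hx',
            (le_max_left _ _).trans_lt hβ, hα.trans_le hy', (le_max_right _ _).trans_lt hβ⟩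

/-- the main theorem -/
theorem main (hD : Diamond) : ∃ (X : Type) (_ : TopologicalSpace X), CompactSpace X ∧
    T2Space X ∧ SeparableSpace X ∧ ¬ MetrizableSpace X ∧ TExtendial (X × X) := by
  classical
  obtain ⟨A, hA⟩ := hD.guess
  obtain ⟨f, hf⟩ := exists_data (𝓔 := tasks A) omega1_Iio_countable (tasks_countable A)
    (fun i => Or.inl (Or.inl (by simp)))
  have ht2 := Sp.t2 hf
  have hwlc := Sp.wlc hf
  have hb : ∀ i : Omega1, ∃ j, i < j := by
    intro i
    obtain ⟨j, hj⟩ := omega1_bound {i} (countable_singleton _)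
    exact ⟨j, hj i rfl⟩
  obtain ⟨w0, -⟩ := omega1_bound ∅ countable_empty
  have hneI : Nonempty Omega1 := ⟨w0⟩
  have wf : WellFounded (fun i j : Omega1 => i < j) := wellFounded_lt
  set i₀ : Omega1 := wf.min Set.univ ⟨w0, mem_univ _⟩ with hi₀
  have hi₀le : ∀ i, i₀ ≤ i := fun i => not_lt.1 (wf.not_lt_min _ (mem_univ i))
  refine ⟨OnePoint (Sp f), inferInstance, inferInstance, inferInstance, ?_, ?_, ?_⟩
  · -- separable
    have h1 := tail_subset_closure hf hb i₀
    have h2 : tail f i₀ = univ := by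
      rw [eq_univ_iff_forall]
      intro x z _
      exact hi₀le _
    rw [h2] at h1
    refine ⟨⟨_, ?_, dense_iff_closure_eq.2 (univ_subset_iff.1 h1)⟩⟩
    have h3 : {w : Sp f | w.lv = i₀} ⊆ (fun n : ℕ => (⟨(i₀, n)⟩ : Sp f)) '' univ := by
      rintro ⟨⟨a, n⟩⟩ hw
      refine ⟨n, mem_univ _, ?_⟩
      have : a = i₀ := hw
      rw [this]
    exact ((countable_univ.image _).mono h3).image _
  · -- not metrizable
    intro hmet
    let _ := metrizableSpaceMetric (OnePoint (Sp f))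
    have hsc : SecondCountableTopology (OnePoint (Sp f)) := inferInstance
    have hsc2 : SecondCountableTopology (Sp f) :=
      OnePoint.isOpenEmbedding_coe.isInducing.secondCountableTopology
    obtain ⟨T, hT1, hT2⟩ := isOpen_iUnion_countable
      (fun γ : Omega1 => {z : Sp f | z.lv ≤ γ}) (fun γ => Sp.isOpen_le γ)
    obtain ⟨i, hi⟩ := omega1_bound T hT1
    have h1 : (⟨(i, 0)⟩ : Sp f) ∈ ⋃ γ : Omega1, {z : Sp f | z.lv ≤ γ} :=
      mem_iUnion.2 ⟨i, le_refl i⟩
    rw [← hT2] at h1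
    simp only [mem_iUnion] at h1
    obtain ⟨γ, hγ, h2⟩ := h1
    exact absurd (hi γ hγ) (not_lt.2 h2)
  · intro F hF
    exact TEmbedded.of_ext (ext_closed hA hf hF)

end main

end Pool.Agent.Lib.MP_302921_gt
end
end
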